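import Mathlib
import Pool.Agent.Helper83K9.Cap.Solve

/-! # The estimator for a general kernel: a variational inequality on the disc -/

set_option autoImplicit false

open Real MeasureTheory Set Filter Topology

namespace Pool.Agent.Helper83K9.Cap2

open Pool.Agent.Helper83K9.Cap

/-- A kernel on the disc of radius `k`. -/
structure Ker (k : ℝ) where
  w : ℝ → ℝ
  Q : ℝ → ℝ
  dw : ℝ → ℝ
  dQ : ℝ → ℝ
  K : ℝ
  B : ℝ
  m : ℝ
  k0 : 0 < k
  k1 : k < 1
  hB : 1 ≤ B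
  hKB : K ≤ B
  hm : 0 < m
  mw : Measurable w
  mQ : Measurable Q
  mdw : Measurable dw
  mdQ : Measurable dQ
  hw : ∀ y ∈ Icc (-k) k, HasDerivAt w (dw y) y
  hQ : ∀ y ∈ Icc (-k) k, HasDerivAt Q (dQ y) y
  bw : ∀ y ∈ Icc (-k) k, |w y| ≤ B
  bQ : ∀ y ∈ Icc (-k) k, |Q y| ≤ K
  bdw : ∀ y ∈ Icc (-k) k, |dw y| ≤ B
  bdQ : ∀ y ∈ Icc (-k) k, |dQ y| ≤ B
  mono : ∀ y ∈ Icc (-k) k, ∀ H, |H| ≤ K → m ≤ dw y * (Q y - H) + w y * dQ y

/-- projection to the interval -/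
noncomputable def pj (k t : ℝ) : ℝ := max (-k) (min t k)

theorem pj_mem {k : ℝ} (hk : 0 < k) (t : ℝ) : pj k t ∈ Icc (-k) k := by
  unfold pj
  exact ⟨le_max_left _ _, max_le (by linarith) (min_le_right _ _)⟩

theorem pj_eq {k t : ℝ} (ht : t ∈ Icc (-k) k) : pj k t = t := by
  unfold pj
  rw [min_eq_left ht.2, max_eq_right ht.1]

theorem continuous_pj (k : ℝ) : Continuous (pj k) := by
  unfold pj
  exact continuous_const.max (continuous_id.min continuous_const)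

theorem mem_Icc_sq {k y : ℝ} (hk : 0 < k) : y ∈ Icc (-k) k ↔ y ^ 2 ≤ k ^ 2 := by
  rw [mem_Icc]
  constructor
  · intro h
    nlinarith [h.1, h.2]
  · intro h
    exact abs_le.mp (abs_le_of_sq_le_sq h hk.le)

section

variable {k : ℝ} (κ : Ker k)

/-- minus the integrand of the equation, at a single angle -/
noncomputable def Ker.ff (H y : ℝ) : ℝ := κ.w y * (κ.Q y - H)

theorem Ker.K0 : 0 ≤ κ.K :=
  (abs_nonneg _).trans (κ.bQ 0 ⟨by linarith [κ.k0], κ.k0.le⟩)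

theorem Ker.cont_w : Continuous (fun t => κ.w (pj k t)) := by
  have h : ContinuousOn κ.w (Icc (-k) k) := fun y hy =>
    (κ.hw y hy).continuousAt.continuousWithinAt
  exact h.comp_continuous (continuous_pj k) (pj_mem κ.k0)

theorem Ker.cont_Q : Continuous (fun t => κ.Q (pj k t)) := by
  have h : ContinuousOn κ.Q (Icc (-k) k) := fun y hy =>
    (κ.hQ y hy).continuousAt.continuousWithinAt
  exact h.comp_continuous (continuous_pj k) (pj_mem κ.k0)

/-- first primitive -/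
noncomputable def Ker.pA (y : ℝ) : ℝ := ∫ t in (0 : ℝ)..y, κ.w (pj k t) * κ.Q (pj k t)

/-- second primitive -/
noncomputable def Ker.pB (y : ℝ) : ℝ := ∫ t in (0 : ℝ)..y, κ.w (pj k t)

/-- the primitive of `ff` -/
noncomputable def Ker.jj (H y : ℝ) : ℝ := κ.pA y - H * κ.pB y

theorem Ker.hasDerivAt_pA (y : ℝ) : HasDerivAt κ.pA (κ.w (pj k y) * κ.Q (pj k y)) y := by
  have hc : Continuous (fun t => κ.w (pj k t) * κ.Q (pj k t)) := κ.cont_w.mul κ.cont_Q
  exact intervalIntegral.integral_hasDerivAt_right (hc.intervalIntegrable _ _)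
    hc.stronglyMeasurable.stronglyMeasurableAtFilter hc.continuousAt

theorem Ker.hasDerivAt_pB (y : ℝ) : HasDerivAt κ.pB (κ.w (pj k y)) y := by
  have hc := κ.cont_w
  exact intervalIntegral.integral_hasDerivAt_right (hc.intervalIntegrable _ _)
    hc.stronglyMeasurable.stronglyMeasurableAtFilter hc.continuousAt

theorem Ker.hasDerivAt_jj (H : ℝ) {y : ℝ} (hy : y ∈ Icc (-k) k) :
    HasDerivAt (κ.jj H) (κ.ff H y) y := by
  have h := (κ.hasDerivAt_pA y).fun_sub ((κ.hasDerivAt_pB y).const_mul H)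
  refine h.congr_deriv ?_
  rw [pj_eq hy]
  unfold Ker.ff
  ring

theorem Ker.hasDerivAt_ff (H : ℝ) {y : ℝ} (hy : y ∈ Icc (-k) k) :
    HasDerivAt (κ.ff H) (κ.dw y * (κ.Q y - H) + κ.w y * κ.dQ y) y := by
  have h := (κ.hw y hy).fun_mul ((κ.hQ y hy).sub_const H)
  exact h.congr_deriv (by ring)

/-- strong monotonicity -/
theorem Ker.ff_mono {H : ℝ} (hH : |H| ≤ κ.K) {y z : ℝ} (hy : y ∈ Icc (-k) k)
    (hz : z ∈ Icc (-k) k) : κ.m * (z - y) ^ 2 ≤ (κ.ff H z - κ.ff H y) * (z - y) := by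
  have hcont : ContinuousOn (κ.ff H) (Icc (-k) k) := fun x hx =>
    (κ.hasDerivAt_ff H hx).continuousAt.continuousWithinAt
  have hdiff : DifferentiableOn ℝ (κ.ff H) (interior (Icc (-k) k)) :=
    fun x hx => (κ.hasDerivAt_ff H (interior_subset hx)).differentiableAt.differentiableWithinAt
  have hder : ∀ x ∈ interior (Icc (-k) k), κ.m ≤ deriv (κ.ff H) x := by
    intro x hx
    rw [(κ.hasDerivAt_ff H (interior_subset hx)).deriv]
    exact κ.mono x (interior_subset hx) H hH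
  have key : ∀ a ∈ Icc (-k) k, ∀ b ∈ Icc (-k) k, a ≤ b →
      κ.m * (b - a) ≤ κ.ff H b - κ.ff H a :=
    (convex_Icc (-k) k).mul_sub_le_image_sub_of_le_deriv hcont hdiff hder
  rcases le_total y z with h | h
  · have := key y hy z hz h
    nlinarith
  · have := key z hz y hy h
    nlinarith

/-- the Lipschitz constant -/
noncomputable def Ker.L : ℝ := 3 * κ.B ^ 2

theorem Ker.B0 : 0 ≤ κ.B := by linarith [κ.hB]

theorem Ker.L0 : 0 ≤ κ.L := by unfold Ker.L; positivity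

theorem Ker.B_le_L : κ.B ≤ κ.L := by
  unfold Ker.L
  nlinarith [κ.hB]

theorem Ker.ff_bound {H y : ℝ} (hH : |H| ≤ κ.K) (hy : y ∈ Icc (-k) k) : |κ.ff H y| ≤ κ.L := by
  unfold Ker.ff Ker.L
  rw [abs_mul]
  have h1 := κ.bw y hy
  have h2 : |κ.Q y - H| ≤ 2 * κ.B := by
    refine (abs_sub _ _).trans ?_
    have := κ.bQ y hy
    have := κ.hKB
    linarith
  have := κ.hB
  have h3 := mul_le_mul h1 h2 (abs_nonneg _) κ.B0
  nlinarith

theorem Ker.dff_bound {H y : ℝ} (hH : |H| ≤ κ.K) (hy : y ∈ Icc (-k) k) :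
    |κ.dw y * (κ.Q y - H) + κ.w y * κ.dQ y| ≤ κ.L := by
  unfold Ker.L
  refine (abs_add_le _ _).trans ?_
  rw [abs_mul, abs_mul]
  have h1 := κ.bdw y hy
  have h2 : |κ.Q y - H| ≤ 2 * κ.B := by
    refine (abs_sub _ _).trans ?_
    have := κ.bQ y hy
    have := κ.hKB
    linarith
  have h3 := mul_le_mul h1 h2 (abs_nonneg _) κ.B0
  have h4 := mul_le_mul (κ.bw y hy) (κ.bdQ y hy) (abs_nonneg _) κ.B0
  nlinarith

/-- Lipschitz bound in `y` -/
theorem Ker.ff_lip {H : ℝ} (hH : |H| ≤ κ.K) {y z : ℝ} (hy : y ∈ Icc (-k) k)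
    (hz : z ∈ Icc (-k) k) : |κ.ff H z - κ.ff H y| ≤ κ.L * |z - y| := by
  have key := (convex_Icc (-k) k).norm_image_sub_le_of_norm_hasDerivWithin_le
    (f := κ.ff H) (f' := fun y => κ.dw y * (κ.Q y - H) + κ.w y * κ.dQ y) (C := κ.L)
    (x := y) (y := z)
    (fun x hx => (κ.hasDerivAt_ff H hx).hasDerivWithinAt)
    (fun x hx => by
      rw [Real.norm_eq_abs]
      exact κ.dff_bound hH hx) hy hz
  simpa [Real.norm_eq_abs] using key

theorem Ker.ff_lip' {H H' : ℝ} {y : ℝ} (hy : y ∈ Icc (-k) k) :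
    |κ.ff H y - κ.ff H' y| ≤ κ.L * |H - H'| := by
  have e : κ.ff H y - κ.ff H' y = κ.w y * (-(H - H')) := by
    unfold Ker.ff; ring
  rw [e, abs_mul, abs_neg]
  exact mul_le_mul_of_nonneg_right ((κ.bw y hy).trans κ.B_le_L) (abs_nonneg _)

/-- convexity of the primitive -/
theorem Ker.jj_convex {H : ℝ} (hH : |H| ≤ κ.K) {y z : ℝ} (hy : y ∈ Icc (-k) k)
    (hz : z ∈ Icc (-k) k) : κ.jj H z - κ.jj H y ≤ κ.ff H z * (z - y) := by
  have key : ∀ a b : ℝ, a ∈ Icc (-k) k → b ∈ Icc (-k) k → a < b →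
      ∃ x ∈ Ioo a b, κ.ff H x * (b - a) = κ.jj H b - κ.jj H a := by
    intro a b ha hb hab
    have hsub : Icc a b ⊆ Icc (-k) k := fun x hx => ⟨ha.1.trans hx.1, hx.2.trans hb.2⟩
    obtain ⟨x, hx, h⟩ := exists_hasDerivAt_eq_slope (κ.jj H) (κ.ff H) hab
      (fun x hx => (κ.hasDerivAt_jj H (hsub hx)).continuousAt.continuousWithinAt)
      (fun x hx => κ.hasDerivAt_jj H (hsub (Ioo_subset_Icc_self hx)))
    refine ⟨x, hx, ?_⟩
    rw [h]
    have : b - a ≠ 0 := by linarith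
    field_simp
  have hm := κ.hm
  rcases lt_trichotomy y z with h | h | h
  · obtain ⟨x, hx, e⟩ := key y z hy hz h
    rw [← e]
    apply mul_le_mul_of_nonneg_right _ (by linarith)
    have hx' : x ∈ Icc (-k) k := ⟨hy.1.trans hx.1.le, hx.2.le.trans hz.2⟩
    have := κ.ff_mono hH hx' hz
    have h2 : 0 < z - x := by linarith [hx.2]
    by_contra hlt
    push Not at hlt
    nlinarith [mul_nonneg hm.le (sq_nonneg (z - x))]
  · rw [h]; simp
  · obtain ⟨x, hx, e⟩ := key z y hz hy h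
    have hx' : x ∈ Icc (-k) k := ⟨hz.1.trans hx.1.le, hx.2.le.trans hy.2⟩
    have := κ.ff_mono hH hz hx'
    have h2 : 0 < x - z := by linarith [hx.1]
    have h3 : κ.ff H z ≤ κ.ff H x := by
      by_contra hlt
      push Not at hlt
      nlinarith [mul_nonneg hm.le (sq_nonneg (x - z))]
    nlinarith

theorem lin_mem {x1 x2 : ℝ} (hk : 0 < k) (hR : x1 ^ 2 + x2 ^ 2 ≤ k ^ 2) (φ : ℝ) :
    lin x1 x2 φ ∈ Icc (-k) k := (mem_Icc_sq hk).mpr ((lin_sq_le x1 x2 φ).trans hR)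

theorem measurable_lin (x1 x2 : ℝ) : Measurable (lin x1 x2) := (nice_lin x1 x2).1

theorem Ker.nice_w {x1 x2 : ℝ} (hR : x1 ^ 2 + x2 ^ 2 ≤ k ^ 2) :
    Nice (fun φ => κ.w (lin x1 x2 φ)) :=
  ⟨κ.mw.comp (measurable_lin x1 x2), κ.B, fun φ => κ.bw _ (lin_mem κ.k0 hR φ)⟩

theorem Ker.nice_Q {x1 x2 : ℝ} (hR : x1 ^ 2 + x2 ^ 2 ≤ k ^ 2) :
    Nice (fun φ => κ.Q (lin x1 x2 φ)) :=
  ⟨κ.mQ.comp (measurable_lin x1 x2), κ.K, fun φ => κ.bQ _ (lin_mem κ.k0 hR φ)⟩

theorem Ker.nice_dw {x1 x2 : ℝ} (hR : x1 ^ 2 + x2 ^ 2 ≤ k ^ 2) :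
    Nice (fun φ => κ.dw (lin x1 x2 φ)) :=
  ⟨κ.mdw.comp (measurable_lin x1 x2), κ.B, fun φ => κ.bdw _ (lin_mem κ.k0 hR φ)⟩

theorem Ker.nice_dQ {x1 x2 : ℝ} (hR : x1 ^ 2 + x2 ^ 2 ≤ k ^ 2) :
    Nice (fun φ => κ.dQ (lin x1 x2 φ)) :=
  ⟨κ.mdQ.comp (measurable_lin x1 x2), κ.B, fun φ => κ.bdQ _ (lin_mem κ.k0 hR φ)⟩

theorem Ker.nice_ff {x1 x2 : ℝ} (hR : x1 ^ 2 + x2 ^ 2 ≤ k ^ 2) {h : ℝ → ℝ} (hh : Nice h) :
    Nice (fun φ => κ.ff (h φ) (lin x1 x2 φ)) :=
  (κ.nice_w hR).mul ((κ.nice_Q hR).sub hh)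

theorem Ker.nice_jj {x1 x2 : ℝ} (hR : x1 ^ 2 + x2 ^ 2 ≤ k ^ 2) {h : ℝ → ℝ} (hh : Nice h)
    (hhK : ∀ φ, |h φ| ≤ κ.K) : Nice (fun φ => κ.jj (h φ) (lin x1 x2 φ)) := by
  have cA : Continuous κ.pA := continuous_iff_continuousAt.mpr fun y =>
    (κ.hasDerivAt_pA y).continuousAt
  have cB : Continuous κ.pB := continuous_iff_continuousAt.mpr fun y =>
    (κ.hasDerivAt_pB y).continuousAt
  have hl := measurable_lin x1 x2
  refine ⟨(cA.measurable.comp hl).sub (hh.1.mul (cB.measurable.comp hl)), κ.L, fun φ => ?_⟩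
  have hy := lin_mem κ.k0 hR φ
  have h0I : (0 : ℝ) ∈ Icc (-k) k := ⟨by linarith [κ.k0], κ.k0.le⟩
  have c1 := κ.jj_convex (hhK φ) h0I hy
  have c2 := κ.jj_convex (hhK φ) hy h0I
  have e0 : κ.jj (h φ) 0 = 0 := by unfold Ker.jj Ker.pA Ker.pB; simp
  have b1 := κ.ff_bound (hhK φ) hy
  have b2 := κ.ff_bound (hhK φ) h0I
  rw [e0] at c1 c2
  have hk1 := κ.k1
  have hy1 : |lin x1 x2 φ| ≤ 1 := by
    rw [abs_le]; exact ⟨by linarith [hy.1], by linarith [hy.2]⟩
  have hL := κ.L0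
  have m1 : |κ.ff (h φ) (lin x1 x2 φ) * (lin x1 x2 φ - 0)| ≤ κ.L := by
    rw [abs_mul, sub_zero]
    nlinarith [abs_nonneg (κ.ff (h φ) (lin x1 x2 φ)), abs_nonneg (lin x1 x2 φ)]
  have m2 : |κ.ff (h φ) 0 * (0 - lin x1 x2 φ)| ≤ κ.L := by
    rw [abs_mul, zero_sub, abs_neg]
    nlinarith [abs_nonneg (κ.ff (h φ) 0), abs_nonneg (lin x1 x2 φ)]
  have m1' := (abs_le.mp m1).2
  have m2' := (abs_le.mp m2).2
  rw [abs_le]
  constructor <;> linarith

/-- The variational inequality. -/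
def Ker.VI (h : ℝ → ℝ) (x : ℝ × ℝ) : Prop :=
  x.1 ^ 2 + x.2 ^ 2 ≤ k ^ 2 ∧ ∀ y1 y2 : ℝ, y1 ^ 2 + y2 ^ 2 ≤ k ^ 2 →
    0 ≤ ∫ φ in (0 : ℝ)..(2 * π), κ.ff (h φ) (lin x.1 x.2 φ) * (lin y1 y2 φ - lin x.1 x.2 φ)

/-- Existence of the solution. -/
theorem Ker.exists_VI {h : ℝ → ℝ} (hh : Nice h) (hhk : ∀ φ, |h φ| ≤ κ.K) :
    ∃ x, κ.VI h x := by
  have k0 := κ.k0
  have k1 := κ.k1
  have L0 := κ.L0
  set D : Set (ℝ × ℝ) := {x | x.1 ^ 2 + x.2 ^ 2 ≤ k ^ 2} with hD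
  have hDc : IsCompact D := by
    apply Metric.isCompact_of_isClosed_isBounded
    · exact isClosed_le (by fun_prop) continuous_const
    · apply (Metric.isBounded_closedBall (x := (0 : ℝ × ℝ)) (r := 1)).subset
      intro x hx
      rw [Metric.mem_closedBall, dist_zero_right, Prod.norm_def]
      have hx' : x.1 ^ 2 + x.2 ^ 2 ≤ k ^ 2 := hx
      apply max_le
      · rw [Real.norm_eq_abs, abs_le]
        constructor <;> nlinarith [sq_nonneg x.1, sq_nonneg x.2]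
      · rw [Real.norm_eq_abs, abs_le]
        constructor <;> nlinarith [sq_nonneg x.1, sq_nonneg x.2]
  have hDn : D.Nonempty := ⟨(0, 0), by simp [hD]; positivity⟩
  set J : ℝ × ℝ → ℝ := fun x => ∫ φ in (0 : ℝ)..(2 * π), κ.jj (h φ) (lin x.1 x.2 φ) with hJ
  have hpi : (0 : ℝ) ≤ 2 * π := by positivity
  -- comparison of values
  have hcomp : ∀ x ∈ D, ∀ y ∈ D, J y - J x
      ≤ ∫ φ in (0 : ℝ)..(2 * π), κ.ff (h φ) (lin y.1 y.2 φ) * (lin y.1 y.2 φ - lin x.1 x.2 φ) := by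
    intro x hx y hy
    have nx := κ.nice_jj hx hh hhk
    have ny := κ.nice_jj hy hh hhk
    simp only [hJ]
    rw [← intervalIntegral.integral_sub (ny.intervalIntegrable _ _) (nx.intervalIntegrable _ _)]
    apply intervalIntegral.integral_mono_on hpi
    · exact (ny.sub nx).intervalIntegrable _ _
    · exact ((κ.nice_ff hy hh).mul ((nice_lin _ _).sub (nice_lin _ _))).intervalIntegrable _ _
    · intro φ _
      exact κ.jj_convex (hhk φ) (lin_mem k0 hx φ) (lin_mem k0 hy φ)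
  have hlindiff : ∀ (x y : ℝ × ℝ) (φ : ℝ), |lin y.1 y.2 φ - lin x.1 x.2 φ| ≤ 2 * dist y x := by
    intro x y φ
    have e : lin y.1 y.2 φ - lin x.1 x.2 φ = (y.1 - x.1) * cos φ + (y.2 - x.2) * sin φ := by
      unfold lin; ring
    rw [e, dist_eq_norm]
    have h1 : |y.1 - x.1| ≤ ‖y - x‖ := norm_fst_le (y - x)
    have h2 : |y.2 - x.2| ≤ ‖y - x‖ := norm_snd_le (y - x)
    refine (abs_add_le _ _).trans ?_
    rw [abs_mul, abs_mul]
    have := abs_cos_le_one φ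
    have := abs_sin_le_one φ
    nlinarith [abs_nonneg (y.1 - x.1), abs_nonneg (y.2 - x.2), abs_nonneg (cos φ),
      abs_nonneg (sin φ)]
  have hupper : ∀ x ∈ D, ∀ y ∈ D, J y - J x ≤ (4 * π * κ.L) * dist y x := by
    intro x hx y hy
    refine (hcomp x hx y hy).trans ?_
    have h1 := intervalIntegral.norm_integral_le_of_norm_le_const (a := 0) (b := 2 * π)
      (C := 2 * κ.L * dist y x)
      (f := fun φ => κ.ff (h φ) (lin y.1 y.2 φ) * (lin y.1 y.2 φ - lin x.1 x.2 φ)) (fun φ _ => by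
        rw [Real.norm_eq_abs, abs_mul]
        have b1 := κ.ff_bound (hhk φ) (lin_mem k0 hy φ)
        have b2 := hlindiff x y φ
        calc _ ≤ κ.L * (2 * dist y x) := mul_le_mul b1 b2 (abs_nonneg _) L0
          _ = _ := by ring)
    rw [sub_zero, abs_of_nonneg hpi] at h1
    refine (le_abs_self _).trans (h1.trans (le_of_eq ?_))
    ring
  have hcont : ContinuousOn J D := by
    rw [Metric.continuousOn_iff]
    intro x hx ε hε
    refine ⟨ε / (4 * π * κ.L + 1), by positivity, fun y hy hyx => ?_⟩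
    have u1 := hupper x hx y hy
    have u2 := hupper y hy x hx
    rw [dist_comm x y] at u2
    have h3 : (4 * π * κ.L) * dist y x < ε := by
      rw [lt_div_iff₀ (by positivity)] at hyx
      nlinarith [dist_nonneg (x := y) (y := x)]
    rw [Real.dist_eq, abs_lt]
    constructor <;> linarith
  obtain ⟨x, hx, hmin⟩ := hDc.exists_isMinOn hDn hcont
  refine ⟨x, hx, fun y1 y2 hy => ?_⟩
  set I0 := ∫ φ in (0 : ℝ)..(2 * π), κ.ff (h φ) (lin x.1 x.2 φ)
    * (lin y1 y2 φ - lin x.1 x.2 φ) with hI0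
  set c0 : ℝ := 8 * π * κ.L + 1 with hc0
  have hc0pos : 0 < c0 := by positivity
  have key : ∀ t : ℝ, 0 < t → t ≤ 1 → -(c0 * t) ≤ I0 := by
    intro t ht0 ht1
    set y : ℝ × ℝ := (x.1 + t * (y1 - x.1), x.2 + t * (y2 - x.2)) with hyd
    have hyD : y ∈ D := disc_convex hx hy ht0.le ht1
    have h1 : J x ≤ J y := hmin hyD
    have h2 := hcomp x hx y hyD
    have h3 : ∀ φ, lin y.1 y.2 φ = lin x.1 x.2 φ + t * (lin y1 y2 φ - lin x.1 x.2 φ) :=
      fun φ => lin_comb _ _ _ _ _ _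
    have h4 : (∫ φ in (0 : ℝ)..(2 * π), κ.ff (h φ) (lin y.1 y.2 φ)
        * (lin y.1 y.2 φ - lin x.1 x.2 φ))
        ≤ ∫ φ in (0 : ℝ)..(2 * π), (t * (κ.ff (h φ) (lin x.1 x.2 φ)
          * (lin y1 y2 φ - lin x.1 x.2 φ)) + 4 * κ.L * t ^ 2) := by
      apply intervalIntegral.integral_mono_on hpi
      · exact ((κ.nice_ff hyD hh).mul ((nice_lin _ _).sub (nice_lin _ _))).intervalIntegrable _ _
      · exact (((Nice.const t).mul ((κ.nice_ff hx hh).mul ((nice_lin _ _).sub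
          (nice_lin _ _)))).add (Nice.const _)).intervalIntegrable _ _
      · intro φ _
        have l1 := κ.ff_lip (hhk φ) (lin_mem k0 hx φ) (lin_mem k0 hyD φ)
        have hy'3 := lin_mem k0 hy φ
        have hx'3 := lin_mem k0 hx φ
        rw [h3 φ] at l1 ⊢
        set a := lin x.1 x.2 φ with ha
        set b := lin y1 y2 φ with hb
        have e1 : a + t * (b - a) - a = t * (b - a) := by ring
        rw [e1] at l1 ⊢
        have hba : |b - a| ≤ 2 := by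
          rw [abs_le]
          constructor <;> linarith [hy'3.1, hy'3.2, hx'3.1, hx'3.2]
        rw [abs_mul, abs_of_pos ht0] at l1
        have l2 : (κ.ff (h φ) (a + t * (b - a)) - κ.ff (h φ) a) * (b - a) ≤ 4 * κ.L * t := by
          calc _ ≤ |(κ.ff (h φ) (a + t * (b - a)) - κ.ff (h φ) a) * (b - a)| := le_abs_self _
            _ = |κ.ff (h φ) (a + t * (b - a)) - κ.ff (h φ) a| * |b - a| := abs_mul _ _
            _ ≤ (κ.L * (t * |b - a|)) * |b - a| := mul_le_mul_of_nonneg_right l1 (abs_nonneg _)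
            _ ≤ (κ.L * (t * 2)) * 2 := by
              apply mul_le_mul _ hba (abs_nonneg _) (by positivity)
              apply mul_le_mul_of_nonneg_left _ L0
              nlinarith
            _ = 4 * κ.L * t := by ring
        nlinarith
    have nI := (Nice.const t).mul ((κ.nice_ff hx hh).mul ((nice_lin y1 y2).sub
          (nice_lin x.1 x.2)))
    rw [intervalIntegral.integral_add (nI.intervalIntegrable _ _)
      ((Nice.const _).intervalIntegrable _ _), intervalIntegral.integral_const_mul,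
      intervalIntegral.integral_const, ← hI0, smul_eq_mul] at h4
    have h5 : 0 ≤ t * I0 + (2 * π - 0) * (4 * κ.L * t ^ 2) := by linarith
    by_contra hlt
    push Not at hlt
    have h6 := mul_lt_mul_of_pos_left hlt ht0
    have h7 : t * I0 + (2 * π - 0) * (4 * κ.L * t ^ 2) < 0 := by
      have : (2 * π - 0) * (4 * κ.L * t ^ 2) = t * ((c0 - 1) * t) := by rw [hc0]; ring
      rw [this]
      nlinarith [mul_pos ht0 ht0]
    linarith
  by_contra hlt
  push Not at hlt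
  have hlt' : 0 < -I0 := by linarith
  set t := min 1 (-I0 / (2 * c0)) with ht
  have ht0 : 0 < t := lt_min one_pos (by positivity)
  have h1 := key t ht0 (min_le_left _ _)
  have h2 : t ≤ -I0 / (2 * c0) := min_le_right _ _
  have h3 : c0 * t ≤ -I0 / 2 := by
    calc c0 * t ≤ c0 * (-I0 / (2 * c0)) := mul_le_mul_of_nonneg_left h2 hc0pos.le
      _ = -I0 / 2 := by field_simp
  linarith

/-- the Lipschitz constant of the solution -/
noncomputable def Ker.Λ : ℝ := 2 * κ.L / κ.m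

theorem Ker.Λ0 : 0 ≤ κ.Λ := by
  unfold Ker.Λ
  have := κ.L0
  have := κ.hm
  positivity

/-- Lipschitz dependence of the solution. -/
theorem Ker.VI_lip {h h' : ℝ → ℝ} (hh : Nice h) (hh' : Nice h')
    (hhk : ∀ φ, |h φ| ≤ κ.K) {δ : ℝ} (hδ : ∀ φ, |h φ - h' φ| ≤ δ)
    {x y : ℝ × ℝ} (hx : κ.VI h x) (hy : κ.VI h' y) :
    √((y.1 - x.1) ^ 2 + (y.2 - x.2) ^ 2) ≤ κ.Λ * δ := by
  have k0 := κ.k0
  have L0 := κ.L0
  have hm := κ.hm
  have v1 := hx.2 y.1 y.2 hy.1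
  have v2 := hy.2 x.1 x.2 hx.1
  set E := √((y.1 - x.1) ^ 2 + (y.2 - x.2) ^ 2) with hE
  have hE0 : 0 ≤ E := Real.sqrt_nonneg _
  have hE2 : E ^ 2 = (y.1 - x.1) ^ 2 + (y.2 - x.2) ^ 2 := Real.sq_sqrt (by positivity)
  have hδ0 : 0 ≤ δ := (abs_nonneg _).trans (hδ 0)
  have hpi : (0 : ℝ) ≤ 2 * π := by positivity
  have hlin : ∀ φ, lin y.1 y.2 φ - lin x.1 x.2 φ = lin (y.1 - x.1) (y.2 - x.2) φ := by
    intro φ; unfold lin; ring
  have habs : ∀ φ, |lin (y.1 - x.1) (y.2 - x.2) φ| ≤ E := by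
    intro φ
    exact Real.abs_le_sqrt (lin_sq_le _ _ φ)
  have n1 := (κ.nice_ff hx.1 hh).mul ((nice_lin y.1 y.2).sub (nice_lin x.1 x.2))
  have n2 := (κ.nice_ff hy.1 hh').mul ((nice_lin x.1 x.2).sub (nice_lin y.1 y.2))
  have n3 : Nice (fun φ => κ.L * δ * E - κ.m * lin (y.1 - x.1) (y.2 - x.2) φ ^ 2) :=
    (Nice.const _).sub ((Nice.const _).mul ((nice_lin _ _).pow 2))
  have h1 : 0 ≤ ∫ φ in (0 : ℝ)..(2 * π),
      (κ.L * δ * E - κ.m * lin (y.1 - x.1) (y.2 - x.2) φ ^ 2) := by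
    have h2 := add_nonneg v1 v2
    rw [← intervalIntegral.integral_add (n1.intervalIntegrable _ _)
      (n2.intervalIntegrable _ _)] at h2
    refine h2.trans ?_
    apply intervalIntegral.integral_mono_on hpi
    · exact (n1.add n2).intervalIntegrable _ _
    · exact n3.intervalIntegrable _ _
    · intro φ _
      have m1 := κ.ff_mono (hhk φ) (lin_mem k0 hx.1 φ) (lin_mem k0 hy.1 φ)
      have m2 := κ.ff_lip' (H := h φ) (H' := h' φ) (lin_mem k0 hy.1 φ)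
      have m3 := habs φ
      have m4 := hδ φ
      rw [← hlin] at m3 ⊢
      set a := lin x.1 x.2 φ
      set b := lin y.1 y.2 φ
      have e : κ.ff (h φ) a * (b - a) + κ.ff (h' φ) b * (a - b)
          = -((κ.ff (h φ) b - κ.ff (h φ) a) * (b - a))
            + (κ.ff (h φ) b - κ.ff (h' φ) b) * (b - a) := by
        ring
      rw [e]
      have m5 : (κ.ff (h φ) b - κ.ff (h' φ) b) * (b - a) ≤ κ.L * δ * E := by
        calc _ ≤ |(κ.ff (h φ) b - κ.ff (h' φ) b) * (b - a)| := le_abs_self _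
          _ = |κ.ff (h φ) b - κ.ff (h' φ) b| * |b - a| := abs_mul _ _
          _ ≤ (κ.L * δ) * E := by
            apply mul_le_mul (m2.trans (mul_le_mul_of_nonneg_left m4 L0)) m3 (abs_nonneg _)
              (by positivity)
      linarith
  rw [intervalIntegral.integral_sub ((Nice.const _).intervalIntegrable _ _)
    (((Nice.const _).mul ((nice_lin _ _).pow 2)).intervalIntegrable _ _),
    intervalIntegral.integral_const, intervalIntegral.integral_const_mul, integral_lin_sq,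
    smul_eq_mul, ← hE2] at h1
  have hpi' := Real.pi_pos
  have h2 : 0 ≤ (2 * κ.L * δ - κ.m * E) * E := by
    have e : (2 * π - 0) * (κ.L * δ * E) - κ.m * (π * E ^ 2)
        = π * ((2 * κ.L * δ - κ.m * E) * E) := by ring
    rw [e] at h1
    exact nonneg_of_mul_nonneg_right h1 hpi'
  have h3 : κ.m * E ≤ 2 * κ.L * δ := by
    by_contra hlt
    push Not at hlt
    have hEpos : 0 < E := by
      have h5 : 0 ≤ 2 * κ.L * δ := by positivity
      have h6 : 0 < κ.m * E := by linarith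
      rcases hE0.eq_or_lt with h7 | h7
      · rw [← h7, mul_zero] at h6
        exact absurd h6 (lt_irrefl 0)
      · exact h7
    nlinarith [mul_neg_of_neg_of_pos (by linarith : 2 * κ.L * δ - κ.m * E < 0) hEpos]
  unfold Ker.Λ
  rw [div_mul_eq_mul_div, le_div_iff₀ hm]
  linarith

/-- A pencil is its own solution. -/
theorem Ker.VI_pencil {x1 x2 : ℝ} (hx : x1 ^ 2 + x2 ^ 2 ≤ k ^ 2) :
    κ.VI (fun φ => κ.Q (lin x1 x2 φ)) (x1, x2) := by
  refine ⟨hx, fun y1 y2 _ => ?_⟩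
  have e : ∀ φ, κ.ff (κ.Q (lin x1 x2 φ)) (lin x1 x2 φ) = 0 := by
    intro φ; unfold Ker.ff; simp
  simp [e]

/-- In the interior of the disc the equation holds. -/
theorem Ker.VI_eqn {h : ℝ → ℝ} {x : ℝ × ℝ} (hx : κ.VI h x)
    (hint : x.1 ^ 2 + x.2 ^ 2 < k ^ 2) (i : Fin 2) :
    ∫ φ in (0 : ℝ)..(2 * π), vv i φ * κ.ff (h φ) (lin x.1 x.2 φ) = 0 := by
  set I := ∫ φ in (0 : ℝ)..(2 * π), vv i φ * κ.ff (h φ) (lin x.1 x.2 φ) with hI
  set e1 : ℝ := if i = 0 then 1 else 0 with he1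
  set e2 : ℝ := if i = 0 then 0 else 1 with he2
  have hcont : Continuous (fun t : ℝ => (x.1 + t * e1) ^ 2 + (x.2 + t * e2) ^ 2) := by fun_prop
  have h0 : ∀ᶠ t in nhds (0 : ℝ), (x.1 + t * e1) ^ 2 + (x.2 + t * e2) ^ 2 < k ^ 2 := by
    apply hcont.continuousAt.eventually (gt_mem_nhds _)
    simpa using hint
  obtain ⟨ε, hε, hball⟩ := Metric.eventually_nhds_iff.mp h0
  have key : ∀ t : ℝ, |t| < ε → 0 ≤ t * I := by
    intro t ht
    have h1 := hx.2 (x.1 + t * e1) (x.2 + t * e2) (hball (by simpa [Real.dist_eq] using ht)).le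
    have e : ∀ φ, κ.ff (h φ) (lin x.1 x.2 φ) * (lin (x.1 + t * e1) (x.2 + t * e2) φ
        - lin x.1 x.2 φ) = t * (vv i φ * κ.ff (h φ) (lin x.1 x.2 φ)) := by
      intro φ
      have e3 : lin (x.1 + t * e1) (x.2 + t * e2) φ - lin x.1 x.2 φ = t * vv i φ := by
        unfold lin vv
        simp only [he1, he2]
        split_ifs <;> ring
      rw [e3]
      ring
    simp_rw [e] at h1
    rwa [intervalIntegral.integral_const_mul] at h1
  have k1 := key (ε / 2) (by rw [abs_of_pos (by positivity)]; linarith)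
  have k2 := key (-(ε / 2)) (by rw [abs_neg, abs_of_pos (by positivity)]; linarith)
  have h1 : I ≤ 0 := by
    by_contra hlt; push Not at hlt; nlinarith
  have h2 : 0 ≤ I := by
    by_contra hlt; push Not at hlt; nlinarith
  exact le_antisymm h1 h2

end

end Pool.Agent.Helper83K9.Cap2
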