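import Mathlib
import Pool.Agent.Helper83K9.Cap.Pointwise

/-! # Means of powers of a quadratic form of determinant one -/

set_option autoImplicit false
set_option linter.unusedSectionVars false

open Real MeasureTheory Set Filter Topology

namespace Pool.Agent.Helper83K9.Cap2

open Pool.Agent.Helper83K9.Cap

/-- A positive quadratic form in `cos`, `sin` is a multiple of some `rho2`. -/
theorem form_eq {p r s D β : ℝ} (hp : 0 < p) (hD : 0 < D) (hdet : p * s - r ^ 2 = D ^ 2) :
    ∃ l c' β' : ℝ, 0 < l ∧ 0 < c' ∧ l * c' = D ∧ ∀ φ,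
      p * cos (φ - β) ^ 2 + 2 * r * (cos (φ - β) * sin (φ - β)) + s * sin (φ - β) ^ 2
        = l * rho2 c' β' φ := by
  obtain ⟨R, γ, hR0, h1, h2⟩ := exists_polar ((p - s) / 2) r
  have hs : 0 < s := by
    have : 0 < p * s := by nlinarith [sq_nonneg r]
    exact (pos_iff_pos_of_mul_pos this).mp hp
  have hRR : R ^ 2 = ((p - s) / 2) ^ 2 + r ^ 2 := by
    rw [h1, h2]
    have := sin_sq_add_cos_sq γ
    linear_combination (-R ^ 2) * this
  have hprod : ((p + s) / 2 - R) * ((p + s) / 2 + R) = D ^ 2 := by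
    linear_combination (-1 : ℝ) * hRR + hdet
  have hpos2 : 0 < (p + s) / 2 + R := by linarith
  have hl : 0 < (p + s) / 2 - R := by
    have : 0 < ((p + s) / 2 - R) * ((p + s) / 2 + R) := by rw [hprod]; positivity
    exact (pos_iff_pos_of_mul_pos this).mpr hpos2
  refine ⟨(p + s) / 2 - R, D / ((p + s) / 2 - R), β + γ / 2, hl, by positivity,
    mul_div_cancel₀ D hl.ne', fun φ => ?_⟩
  set l := (p + s) / 2 - R with hldef
  have e1 : l * (D / l) ^ 2 = (p + s) / 2 + R := by
    have : (p + s) / 2 + R = D ^ 2 / l := by rw [← hprod]; field_simp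
    rw [this]; field_simp
  have e2 : l * rho2 (D / l) (β + γ / 2) φ
      = l * (D / l) ^ 2 * cos (φ - (β + γ / 2)) ^ 2 + l * sin (φ - (β + γ / 2)) ^ 2 := by
    unfold rho2; ring
  rw [e2, e1]
  set θ := φ - β with hθ
  have e3 : φ - (β + γ / 2) = θ - γ / 2 := by rw [hθ]; ring
  rw [e3]
  have c1 : cos (θ - γ / 2) = cos θ * cos (γ / 2) + sin θ * sin (γ / 2) := cos_sub _ _
  have c2 : sin (θ - γ / 2) = sin θ * cos (γ / 2) - cos θ * sin (γ / 2) := sin_sub _ _
  have g1 : cos γ = cos (γ / 2) ^ 2 - sin (γ / 2) ^ 2 := by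
    conv_lhs => rw [show γ = 2 * (γ / 2) by ring]
    exact cos_two_mul' _
  have g2 : sin γ = 2 * sin (γ / 2) * cos (γ / 2) := by
    conv_lhs => rw [show γ = 2 * (γ / 2) by ring]
    exact sin_two_mul _
  have t1 := sin_sq_add_cos_sq θ
  have t2 := sin_sq_add_cos_sq (γ / 2)
  rw [g1] at h1
  rw [g2] at h2
  have hp' : p = (p + s) / 2 + (p - s) / 2 := by ring
  have hs' : s = (p + s) / 2 - (p - s) / 2 := by ring
  rw [c1, c2, hldef]
  set a := cos (γ / 2)
  set b := sin (γ / 2)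
  set x := cos θ
  set y := sin θ
  set m := (p + s) / 2
  have lhs : p * x ^ 2 + 2 * r * (x * y) + s * y ^ 2
      = m * (x ^ 2 + y ^ 2) + (p - s) / 2 * (x ^ 2 - y ^ 2) + 2 * r * (x * y) := by
    linear_combination (x ^ 2) * hp' + (y ^ 2) * hs'
  rw [lhs, h1, h2]
  have rhs : (m + R) * (x * a + y * b) ^ 2 + (m - R) * (y * a - x * b) ^ 2
      = m * ((x ^ 2 + y ^ 2) * (b ^ 2 + a ^ 2)) + R * ((x * a + y * b) ^ 2
        - (y * a - x * b) ^ 2) := by ring
  rw [rhs, t2]
  ring

section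

variable {c β : ℝ} (hc : 0 < c) {a b : ℝ} (ha : 0 < a)

/-- first component -/
noncomputable def NN (c β a b φ : ℝ) : ℝ := a * CC c β φ + b * SS c β φ

/-- second component -/
noncomputable def MM (c β a : ℝ) (φ : ℝ) : ℝ := SS c β φ / a

/-- the quadratic form -/
noncomputable def ww (c β a b φ : ℝ) : ℝ := NN c β a b φ ^ 2 + MM c β a φ ^ 2

/-- half its derivative -/
noncomputable def zz (c β a b φ : ℝ) : ℝ :=
  NN c β a b φ * (-a * SS c β φ + b * CC c β φ) + MM c β a φ * (CC c β φ / a)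

include hc ha

theorem ww_pos (φ : ℝ) : 0 < ww c β a b φ := by
  have h := CC_sq_add_SS_sq (β := β) hc φ
  unfold ww MM NN
  rcases eq_or_ne (SS c β φ) 0 with h0 | h0
  · rw [h0] at h ⊢
    have h1 : CC c β φ ^ 2 = 1 := by linarith
    have : (a * CC c β φ + b * 0) ^ 2 + (0 / a) ^ 2 = a ^ 2 * CC c β φ ^ 2 := by ring
    rw [this, h1]; positivity
  · positivity

theorem ww_const (φ : ℝ) : ww c β a b φ ^ 2 + 1 + zz c β a b φ ^ 2
    = (a ^ 2 + b ^ 2 + 1 / a ^ 2) * ww c β a b φ := by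
  have h := CC_sq_add_SS_sq (β := β) hc φ
  unfold ww zz NN MM
  have ha' := ha.ne'
  set x := CC c β φ
  set y := SS c β φ
  have e : (1 : ℝ) = (x ^ 2 + y ^ 2) ^ 2 := by rw [h]; ring
  have e2 : (a ^ 2 + b ^ 2 + 1 / a ^ 2) * ((a * x + b * y) ^ 2 + (y / a) ^ 2)
      = (a ^ 2 + b ^ 2 + 1 / a ^ 2) * ((a * x + b * y) ^ 2 + (y / a) ^ 2) * (x ^ 2 + y ^ 2) := by
    rw [h, mul_one]
  rw [e2]
  conv_lhs => rw [e]
  field_simp
  ring

theorem inv_ww_le (φ : ℝ) : (ww c β a b φ)⁻¹ ≤ a ^ 2 + b ^ 2 + 1 / a ^ 2 := by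
  have h := ww_pos hc ha (β := β) (b := b) φ
  have h2 := ww_const hc ha (β := β) (b := b) φ
  rw [inv_le_iff_one_le_mul₀ h]
  nlinarith [sq_nonneg (zz c β a b φ), sq_nonneg (ww c β a b φ)]

theorem nice_NN : Nice (NN c β a b) :=
  ((Nice.const a).mul (nice_CC hc)).add ((Nice.const b).mul (nice_SS hc))

theorem nice_MM : Nice (MM c β a) := by
  have h := (nice_SS (β := β) hc).mul (Nice.const a⁻¹)
  have e : MM c β a = fun φ => SS c β φ * a⁻¹ := by
    funext φ; unfold MM; rw [div_eq_mul_inv]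
  rw [e]; exact h

theorem nice_ww : Nice (ww c β a b) :=
  ((nice_NN hc ha).pow 2).add ((nice_MM hc ha).pow 2)

theorem nice_winv' : Nice (fun φ => (ww c β a b φ)⁻¹) := by
  refine ⟨(nice_ww hc ha).1.inv, a ^ 2 + b ^ 2 + 1 / a ^ 2, fun φ => ?_⟩
  rw [abs_of_pos (inv_pos.mpr (ww_pos hc ha φ))]
  exact inv_ww_le hc ha φ

theorem Av_inv : Av c β (fun φ => (ww c β a b φ)⁻¹) = 1 := by
  obtain ⟨l, c', β', hl, hc', hlc, hform⟩ := form_eq (p := a ^ 2 * c ^ 2) (r := a * b * c)
    (s := b ^ 2 + 1 / a ^ 2) (D := c) (β := β) (by positivity) hc (by field_simp; ring)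
  have h1 := Av_one (c := c') (β := β') hc'
  rw [← h1]
  unfold Av
  congr 1
  funext φ
  have hr := rr_pos (β := β) hc φ
  have hr2 := rr_sq (β := β) hc φ
  have hw : ww c β a b φ * rho2 c β φ = l * rho2 c' β' φ := by
    rw [← hform, ← hr2]
    unfold ww NN MM CC SS
    field_simp
    ring
  have hp1 := rho2_pos (β := β) hc φ
  have hp2 := rho2_pos (β := β') hc' φ
  have hw0 := ww_pos hc ha (β := β) (b := b) φ
  unfold aa
  rw [one_mul]
  have e : (ww c β a b φ)⁻¹ * (c / (2 * π * rho2 c β φ))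
      = c / (2 * π * (ww c β a b φ * rho2 c β φ)) := by
    field_simp
  rw [e, hw, ← hlc]
  field_simp

theorem Av_ww : Av c β (ww c β a b) = (a ^ 2 + b ^ 2 + 1 / a ^ 2) / 2 := by
  obtain ⟨m1, m2, m3⟩ := moments1 (β := β) hc
  have nC := nice_CC (β := β) hc
  have nS := nice_SS (β := β) hc
  have ha' := ha.ne'
  have e : ∀ φ, ww c β a b φ = (a ^ 2 * CC c β φ ^ 2 + (b ^ 2 + 1 / a ^ 2) * SS c β φ ^ 2)
      + (2 * a * b) * (CC c β φ * SS c β φ) := by
    intro φ; unfold ww NN MM; field_simp; ring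
  rw [Av_congr e, Av_add hc (((Nice.const _).mul (nC.pow 2)).add ((Nice.const _).mul (nS.pow 2)))
    ((Nice.const _).mul (nC.mul nS)), Av_add hc ((Nice.const _).mul (nC.pow 2))
    ((Nice.const _).mul (nS.pow 2)), Av_smul, Av_smul, Av_smul, m1, m2, m3]
  ring

theorem continuous_ww : Continuous (ww c β a b) := by
  have h1 := continuous_CC (β := β) hc
  have h2 := continuous_SS (β := β) hc
  unfold ww NN MM
  exact (((continuous_const.mul h1).add (continuous_const.mul h2)).pow 2).add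
    ((h2.div_const a).pow 2)

theorem Av_inv_sq : Av c β (fun φ => (ww c β a b φ)⁻¹ ^ 2) = Av c β (ww c β a b) := by
  set E := a ^ 2 + b ^ 2 + 1 / a ^ 2 with hE
  have hpi := Real.pi_pos
  have cw := continuous_ww hc ha (β := β) (b := b)
  have cwi : Continuous (fun φ => (ww c β a b φ)⁻¹) := cw.inv₀ fun φ => (ww_pos hc ha φ).ne'
  have ca := continuous_aa (β := β) hc
  have hd : ∀ φ, HasDerivAt (fun φ => zz c β a b φ * (ww c β a b φ)⁻¹)
      ((2 * π) * ((2 * (ww c β a b φ)⁻¹ ^ 2 - E * (ww c β a b φ)⁻¹) * aa c β φ)) φ := by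
    intro φ
    have d1 := hasDerivAt_CC (β := β) hc φ
    have d2 := hasDerivAt_SS (β := β) hc φ
    have hN : HasDerivAt (NN c β a b)
        ((2 * π * aa c β φ) * (-a * SS c β φ + b * CC c β φ)) φ := by
      have := (d1.const_mul a).fun_add (d2.const_mul b)
      exact this.congr_deriv (by ring)
    have hM : HasDerivAt (MM c β a) ((2 * π * aa c β φ) * (CC c β φ / a)) φ := by
      have := d2.div_const a
      exact this.congr_deriv (by ring)
    have hN' : HasDerivAt (fun φ => -a * SS c β φ + b * CC c β φ)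
        ((2 * π * aa c β φ) * (-NN c β a b φ)) φ := by
      have := (d2.const_mul (-a)).fun_add (d1.const_mul b)
      exact this.congr_deriv (by unfold NN; ring)
    have hM' : HasDerivAt (fun φ => CC c β φ / a) ((2 * π * aa c β φ) * (-MM c β a φ)) φ := by
      have := d1.div_const a
      exact this.congr_deriv (by unfold MM; ring)
    have hw : HasDerivAt (ww c β a b) ((2 * π * aa c β φ) * (2 * zz c β a b φ)) φ := by
      have := (hN.fun_pow 2).fun_add (hM.fun_pow 2)
      exact this.congr_deriv (by unfold zz; push_cast; ring)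
    have hz : HasDerivAt (zz c β a b) ((2 * π * aa c β φ) *
        ((-a * SS c β φ + b * CC c β φ) ^ 2 + (CC c β φ / a) ^ 2 - ww c β a b φ)) φ := by
      have := (hN.fun_mul hN').fun_add (hM.fun_mul hM')
      exact this.congr_deriv (by unfold ww; ring)
    have hw0 := ww_pos hc ha (β := β) (b := b) φ
    have h := hz.fun_mul (hw.fun_inv hw0.ne')
    refine h.congr_deriv ?_
    have hcon := ww_const hc ha (β := β) (b := b) φ
    have hcs := CC_sq_add_SS_sq (β := β) hc φ
    have hE' : (-a * SS c β φ + b * CC c β φ) ^ 2 + (CC c β φ / a) ^ 2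
        = E - ww c β a b φ := by
      have ha' := ha.ne'
      have : E = E * (CC c β φ ^ 2 + SS c β φ ^ 2) := by rw [hcs, mul_one]
      rw [this, hE]
      unfold ww NN MM
      field_simp
      ring
    rw [hE']
    rw [← hE] at hcon
    set W := ww c β a b φ with hW
    set Z := zz c β a b φ with hZ
    have hZ2 : Z ^ 2 = E * W - W ^ 2 - 1 := by linarith
    field_simp
    rw [hZ2]
    ring
  have hi : ∫ φ in (0 : ℝ)..(2 * π), (2 * (ww c β a b φ)⁻¹ ^ 2 - E * (ww c β a b φ)⁻¹)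
      * aa c β φ = 0 := by
    have h := intervalIntegral.integral_eq_sub_of_hasDerivAt (a := 0) (b := 2 * π)
      (fun x _ => hd x) (Continuous.intervalIntegrable (by fun_prop) _ _)
    have hper : zz c β a b (2 * π) * (ww c β a b (2 * π))⁻¹
        - zz c β a b 0 * (ww c β a b 0)⁻¹ = 0 := by
      unfold zz ww NN MM
      rw [CC_per hc, SS_per hc, sub_self]
    rw [hper, intervalIntegral.integral_const_mul] at h
    exact (mul_eq_zero.mp h).resolve_left (by positivity)
  have n1 := nice_winv' hc ha (β := β) (b := b)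
  have h2 : Av c β (fun φ => 2 * (ww c β a b φ)⁻¹ ^ 2 - E * (ww c β a b φ)⁻¹) = 0 := hi
  rw [Av_sub hc ((Nice.const 2).mul (n1.pow 2)) ((Nice.const E).mul n1), Av_smul, Av_smul,
    Av_inv hc ha] at h2
  rw [Av_ww hc ha, ← hE]
  linarith

end

end Pool.Agent.Helper83K9.Cap2
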