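import Mathlib
import Pool.Agent.Helper83K9.Cap2.Ker
import Pool.Agent.Helper83K9.Cap2.Mean

/-! # The pointwise Jacobian inequality for a general kernel -/

set_option autoImplicit false
set_option linter.unusedSectionVars false

open Real MeasureTheory Set Filter Topology

namespace Pool.Agent.Helper83K9.Cap2

open Pool.Agent.Helper83K9.Cap

/-- the majorant: its mean is the mean of `w` -/
noncomputable def maj (c1 c3 w : ℝ) : ℝ := c1 * w + (1 - c1) * w⁻¹ ^ 2 + c3 * (1 - w⁻¹)

section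

variable {c β : ℝ} (hc : 0 < c)

include hc

theorem Av_maj {a b : ℝ} (ha : 0 < a) (c1 c3 : ℝ) :
    Av c β (fun φ => maj c1 c3 (ww c β a b φ)) = Av c β (ww c β a b) := by
  have nw := nice_ww hc ha (β := β) (b := b)
  have ni := nice_winv' hc ha (β := β) (b := b)
  unfold maj
  rw [Av_add hc (((Nice.const c1).mul nw).add ((Nice.const _).mul (ni.pow 2)))
    ((Nice.const c3).mul ((Nice.const 1).sub ni)),
    Av_add hc ((Nice.const c1).mul nw) ((Nice.const _).mul (ni.pow 2)),
    Av_smul, Av_smul, Av_smul, Av_sub hc (Nice.const 1) ni, Av_inv_sq hc ha, Av_inv hc ha,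
    Av_one hc]
  ring

theorem nice_maj {a b : ℝ} (ha : 0 < a) (c1 c3 : ℝ) :
    Nice (fun φ => maj c1 c3 (ww c β a b φ)) := by
  have nw := nice_ww hc ha (β := β) (b := b)
  have ni := nice_winv' hc ha (β := β) (b := b)
  unfold maj
  exact (((Nice.const c1).mul nw).add ((Nice.const _).mul (ni.pow 2))).add
    ((Nice.const c3).mul ((Nice.const 1).sub ni))

/-- The Jacobian inequality, in terms of averages. -/
theorem av_pointwise2 {τ c1 c3 : ℝ} {F P R g Θ : ℝ → ℝ} (nF : Nice F) (nP : Nice P)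
    (nR : Nice R) (nΘ : Nice Θ) {δ : ℝ} (hδ : 0 < δ)
    (hm : ∀ φ, δ ≤ 1 - (Θ φ + 3 * (τ * CC c β φ)) * F φ)
    (hPR : ∀ φ, P φ ^ 2 + R φ ^ 2 ≤ g φ ^ 2)
    (hpt : ∀ φ w z : ℝ, 0 < w → z ^ 2 ≤ w * g φ ^ 2 →
      z + (w * Θ φ + 3 * (τ * CC c β φ) * (w - 1)) * F φ ≤ maj c1 c3 w)
    (E1 : Av c β (fun φ => CC c β φ * F φ) = 0)
    {ξ η ξ' η' : ℝ}
    (D1 : Av c β (fun φ => CC c β φ * (P φ - (1 - (Θ φ + 3 * (τ * CC c β φ)) * F φ)
      * (ξ * CC c β φ + η * SS c β φ))) = 0)
    (D2 : Av c β (fun φ => SS c β φ * (P φ - (1 - (Θ φ + 3 * (τ * CC c β φ)) * F φ)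
      * (ξ * CC c β φ + η * SS c β φ))) = 0)
    (D3 : Av c β (fun φ => CC c β φ * (R φ - (1 - (Θ φ + 3 * (τ * CC c β φ)) * F φ)
      * (ξ' * CC c β φ + η' * SS c β φ))) = 0)
    (D4 : Av c β (fun φ => SS c β φ * (R φ - (1 - (Θ φ + 3 * (τ * CC c β φ)) * F φ)
      * (ξ' * CC c β φ + η' * SS c β φ))) = 0) :
    ξ * η' - η * ξ' ≤ 1 := by
  have nC := nice_CC (β := β) hc
  have nS := nice_SS (β := β) hc
  have cs := CC_sq_add_SS_sq (β := β) hc
  obtain ⟨mo1, mo2, mo3⟩ := moments1 (β := β) hc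
  set m : ℝ → ℝ := fun φ => 1 - (Θ φ + 3 * (τ * CC c β φ)) * F φ with hmdef
  have nm : Nice m := (Nice.const 1).sub ((nΘ.add ((Nice.const 3).mul
    ((Nice.const τ).mul nC))).mul nF)
  set h11 := Av c β (fun φ => m φ * CC c β φ ^ 2) with h11d
  set h12 := Av c β (fun φ => m φ * (CC c β φ * SS c β φ)) with h12d
  set h22 := Av c β (fun φ => m φ * SS c β φ ^ 2) with h22d
  have n11 : Nice (fun φ => m φ * CC c β φ ^ 2) := nm.mul (nC.pow 2)
  have n12 : Nice (fun φ => m φ * (CC c β φ * SS c β φ)) := nm.mul (nC.mul nS)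
  have n22 : Nice (fun φ => m φ * SS c β φ ^ 2) := nm.mul (nS.pow 2)
  have hquad : ∀ x y : ℝ, δ / 2 * (x ^ 2 + y ^ 2) ≤ x ^ 2 * h11 + 2 * x * y * h12 + y ^ 2 * h22 := by
    intro x y
    have e1 : x ^ 2 * h11 + 2 * x * y * h12 + y ^ 2 * h22
        = Av c β (fun φ => (x ^ 2 * (m φ * CC c β φ ^ 2)
          + (2 * x * y) * (m φ * (CC c β φ * SS c β φ))) + y ^ 2 * (m φ * SS c β φ ^ 2)) := by
      rw [Av_add hc (((Nice.const _).mul n11).add ((Nice.const _).mul n12))
        ((Nice.const _).mul n22), Av_add hc ((Nice.const _).mul n11) ((Nice.const _).mul n12),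
        Av_smul, Av_smul, Av_smul]
    have e2 : δ / 2 * (x ^ 2 + y ^ 2) = Av c β (fun φ => ((δ * x ^ 2) * CC c β φ ^ 2
        + (2 * δ * x * y) * (CC c β φ * SS c β φ)) + (δ * y ^ 2) * SS c β φ ^ 2) := by
      rw [Av_add hc (((Nice.const _).mul (nC.pow 2)).add ((Nice.const _).mul (nC.mul nS)))
        ((Nice.const _).mul (nS.pow 2)), Av_add hc ((Nice.const _).mul (nC.pow 2))
        ((Nice.const _).mul (nC.mul nS)), Av_smul, Av_smul, Av_smul, mo1, mo2, mo3]
      ring
    rw [e1, e2]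
    apply Av_mono hc
    · exact (((Nice.const _).mul (nC.pow 2)).add ((Nice.const _).mul (nC.mul nS))).add
        ((Nice.const _).mul (nS.pow 2))
    · exact (((Nice.const _).mul n11).add ((Nice.const _).mul n12)).add ((Nice.const _).mul n22)
    · intro φ
      have h1 := hm φ
      have h2 : 0 ≤ (x * CC c β φ + y * SS c β φ) ^ 2 := sq_nonneg _
      have h3 := mul_le_mul_of_nonneg_right h1 h2
      simp only [hmdef]
      nlinarith
  have p11 : 0 < h11 := by
    have := hquad 1 0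
    nlinarith
  have p22 : 0 < h22 := by
    have := hquad 0 1
    nlinarith
  have pdet : 0 < h11 * h22 - h12 ^ 2 := by
    have h1 := hquad h22 (-h12)
    have h2 : 0 < δ / 2 * (h22 ^ 2 + (-h12) ^ 2) := by positivity
    have h3 : 0 < h22 * (h11 * h22 - h12 ^ 2) := by nlinarith
    exact (pos_iff_pos_of_mul_pos h3).mp p22
  set D := √(h11 * h22 - h12 ^ 2) with hD
  have hDpos : 0 < D := Real.sqrt_pos.mpr pdet
  have hD2 : D ^ 2 = h11 * h22 - h12 ^ 2 := Real.sq_sqrt pdet.le
  set a := √(h22 / D) with ha'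
  have ha : 0 < a := Real.sqrt_pos.mpr (by positivity)
  have ha2 : a ^ 2 = h22 / D := Real.sq_sqrt (by positivity)
  set b := -h12 / (D * a) with hb
  have hab : a * b = -h12 / D := by rw [hb]; field_simp
  have hbb : b ^ 2 + 1 / a ^ 2 = h11 / D := by
    have e1 : b ^ 2 = h12 ^ 2 / (D ^ 2 * a ^ 2) := by rw [hb]; field_simp
    rw [e1, ha2]
    field_simp
    linarith
  have hw : ∀ φ, ww c β a b φ = (h22 / D * CC c β φ ^ 2 + h11 / D * SS c β φ ^ 2)
      + (-(2 * h12 / D)) * (CC c β φ * SS c β φ) := by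
    intro φ
    rw [← ha2, ← hbb]
    have : -(2 * h12 / D) = 2 * (a * b) := by rw [hab]; ring
    rw [this]
    unfold ww NN MM
    ring
  have nw := nice_ww hc ha (β := β) (b := b)
  have hwm : Av c β (fun φ => ww c β a b φ * m φ) = 2 * D := by
    have e1 : Av c β (fun φ => ww c β a b φ * m φ)
        = Av c β (fun φ => (h22 / D * (m φ * CC c β φ ^ 2) + h11 / D * (m φ * SS c β φ ^ 2))
          + (-(2 * h12 / D)) * (m φ * (CC c β φ * SS c β φ))) :=
      Av_congr fun φ => by rw [hw]; ring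
    rw [e1, Av_add hc (((Nice.const _).mul n11).add ((Nice.const _).mul n22))
      ((Nice.const _).mul n12), Av_add hc ((Nice.const _).mul n11) ((Nice.const _).mul n22),
      Av_smul, Av_smul, Av_smul, ← h11d, ← h12d, ← h22d]
    field_simp
    linarith
  -- the matrix K
  set K11 := Av c β (fun φ => CC c β φ * P φ) with hK11
  set K21 := Av c β (fun φ => SS c β φ * P φ) with hK21
  set K12 := Av c β (fun φ => CC c β φ * R φ) with hK12
  set K22 := Av c β (fun φ => SS c β φ * R φ) with hK22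
  have row1 : ∀ {U : ℝ → ℝ} {x y : ℝ}, Nice U →
      Av c β (fun φ => CC c β φ * (U φ - m φ * (x * CC c β φ + y * SS c β φ))) = 0 →
      Av c β (fun φ => CC c β φ * U φ) = x * h11 + y * h12 := by
    intro U x y nU h
    have e : Av c β (fun φ => CC c β φ * (U φ - m φ * (x * CC c β φ + y * SS c β φ)))
        = Av c β (fun φ => (CC c β φ * U φ - x * (m φ * CC c β φ ^ 2))
          - y * (m φ * (CC c β φ * SS c β φ))) := Av_congr fun φ => by ring
    rw [e, Av_sub hc ((nC.mul nU).sub ((Nice.const _).mul n11)) ((Nice.const _).mul n12),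
      Av_sub hc (nC.mul nU) ((Nice.const _).mul n11), Av_smul, Av_smul] at h
    linarith
  have row2 : ∀ {U : ℝ → ℝ} {x y : ℝ}, Nice U →
      Av c β (fun φ => SS c β φ * (U φ - m φ * (x * CC c β φ + y * SS c β φ))) = 0 →
      Av c β (fun φ => SS c β φ * U φ) = x * h12 + y * h22 := by
    intro U x y nU h
    have e : Av c β (fun φ => SS c β φ * (U φ - m φ * (x * CC c β φ + y * SS c β φ)))
        = Av c β (fun φ => (SS c β φ * U φ - x * (m φ * (CC c β φ * SS c β φ)))
          - y * (m φ * SS c β φ ^ 2)) := Av_congr fun φ => by ring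
    rw [e, Av_sub hc ((nS.mul nU).sub ((Nice.const _).mul n12)) ((Nice.const _).mul n22),
      Av_sub hc (nS.mul nU) ((Nice.const _).mul n12), Av_smul, Av_smul] at h
    linarith
  have r1 : K11 = ξ * h11 + η * h12 := row1 nP D1
  have r2 : K21 = ξ * h12 + η * h22 := row2 nP D2
  have r3 : K12 = ξ' * h11 + η' * h12 := row1 nR D3
  have r4 : K22 = ξ' * h12 + η' * h22 := row2 nR D4
  have hdetK : K11 * K22 - K12 * K21 = D ^ 2 * (ξ * η' - η * ξ') := by
    rw [r1, r2, r3, r4, hD2]; ring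
  set X := (a * K11 + b * K21) + K22 / a with hX
  set Y := (a * K12 + b * K22) - K21 / a with hY
  have hXY : 4 * (K11 * K22 - K12 * K21) ≤ X ^ 2 + Y ^ 2 := by
    have e : X ^ 2 + Y ^ 2 - 4 * (K11 * K22 - K12 * K21)
        = ((a * K11 + b * K21) - K22 / a) ^ 2 + ((a * K12 + b * K22) + K21 / a) ^ 2 := by
      rw [hX, hY]
      have ha0 := ha.ne'
      field_simp
      ring
    nlinarith [sq_nonneg ((a * K11 + b * K21) - K22 / a),
      sq_nonneg ((a * K12 + b * K22) + K21 / a)]
  have nN := nice_NN hc ha (β := β) (b := b)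
  have nM := nice_MM hc ha (β := β)
  have hdir : ∀ s t : ℝ, s ^ 2 + t ^ 2 = 1 → s * X + t * Y ≤ 2 * D := by
    intro s t hst
    set z : ℝ → ℝ := fun φ => NN c β a b φ * (s * P φ + t * R φ)
      + MM c β a φ * (s * R φ - t * P φ) with hz
    have nz : Nice z := (nN.mul (((Nice.const s).mul nP).add ((Nice.const t).mul nR))).add
      (nM.mul (((Nice.const s).mul nR).sub ((Nice.const t).mul nP)))
    have hAz : Av c β z = s * X + t * Y := by
      have e1 : Av c β z = Av c β (fun φ => ((((s * a) * (CC c β φ * P φ)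
          + (s * b) * (SS c β φ * P φ)) + (s / a) * (SS c β φ * R φ))
          + (((t * a) * (CC c β φ * R φ) + (t * b) * (SS c β φ * R φ))
            - (t / a) * (SS c β φ * P φ)))) := by
        apply Av_congr
        intro φ
        simp only [hz]
        unfold NN MM
        ring
      rw [e1, Av_add hc ((((Nice.const _).mul (nC.mul nP)).add ((Nice.const _).mul
        (nS.mul nP))).add ((Nice.const _).mul (nS.mul nR)))
        ((((Nice.const _).mul (nC.mul nR)).add ((Nice.const _).mul (nS.mul nR))).sub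
          ((Nice.const _).mul (nS.mul nP))),
        Av_add hc (((Nice.const _).mul (nC.mul nP)).add ((Nice.const _).mul (nS.mul nP)))
          ((Nice.const _).mul (nS.mul nR)),
        Av_add hc ((Nice.const _).mul (nC.mul nP)) ((Nice.const _).mul (nS.mul nP)),
        Av_sub hc (((Nice.const _).mul (nC.mul nR)).add ((Nice.const _).mul (nS.mul nR)))
          ((Nice.const _).mul (nS.mul nP)),
        Av_add hc ((Nice.const _).mul (nC.mul nR)) ((Nice.const _).mul (nS.mul nR)),
        Av_smul, Av_smul, Av_smul, Av_smul, Av_smul, Av_smul, ← hK11, ← hK21, ← hK12, ← hK22,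
        hX, hY]
      ring
    have hzsq : ∀ φ, z φ ^ 2 ≤ ww c β a b φ * g φ ^ 2 := by
      intro φ
      have h1 : z φ ^ 2 ≤ ww c β a b φ * (P φ ^ 2 + R φ ^ 2) := by
        have e : ww c β a b φ * (P φ ^ 2 + R φ ^ 2) - z φ ^ 2
            = (NN c β a b φ * (s * R φ - t * P φ) - MM c β a φ * (s * P φ + t * R φ)) ^ 2
              + ww c β a b φ * (P φ ^ 2 + R φ ^ 2) * (1 - (s ^ 2 + t ^ 2)) := by
          simp only [hz]
          unfold ww
          ring
        rw [hst, sub_self, mul_zero, add_zero] at e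
        nlinarith [sq_nonneg (NN c β a b φ * (s * R φ - t * P φ)
          - MM c β a φ * (s * P φ + t * R φ))]
      exact h1.trans (mul_le_mul_of_nonneg_left (hPR φ) (ww_pos hc ha φ).le)
    have hmono := Av_mono (β := β) hc
      (f := fun φ => (z φ - (3 * τ) * (CC c β φ * F φ))
        + (ww c β a b φ - ww c β a b φ * m φ))
      (g := fun φ => maj c1 c3 (ww c β a b φ))
      ((nz.sub ((Nice.const _).mul (nC.mul nF))).add (nw.sub (nw.mul nm)))
      (nice_maj hc ha c1 c3)
      (fun φ => by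
        have h1 := hpt φ (ww c β a b φ) (z φ) (ww_pos hc ha φ) (hzsq φ)
        refine le_trans (le_of_eq ?_) h1
        simp only [hmdef]
        ring)
    rw [Av_maj hc ha, Av_add hc (nz.sub ((Nice.const _).mul (nC.mul nF))) (nw.sub (nw.mul nm)),
      Av_sub hc nz ((Nice.const _).mul (nC.mul nF)), Av_sub hc nw (nw.mul nm), Av_smul, E1,
      hwm, hAz] at hmono
    linarith
  have hfin : X ^ 2 + Y ^ 2 ≤ 4 * D ^ 2 := by
    rcases eq_or_ne (X ^ 2 + Y ^ 2) 0 with h0 | h0
    · rw [h0]; positivity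
    · have hpos : 0 < X ^ 2 + Y ^ 2 := lt_of_le_of_ne (by positivity) (Ne.symm h0)
      set r := √(X ^ 2 + Y ^ 2) with hr
      have hr0 : 0 < r := Real.sqrt_pos.mpr hpos
      have hr2 : r ^ 2 = X ^ 2 + Y ^ 2 := Real.sq_sqrt hpos.le
      have h1 := hdir (X / r) (Y / r) (by
        rw [div_pow, div_pow, ← add_div, ← hr2]
        field_simp)
      have h2 : X / r * X + Y / r * Y = r := by
        field_simp
        linarith
      rw [h2] at h1
      rw [← hr2]
      nlinarith
  rw [hdetK] at hXY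
  by_contra hlt
  push Not at hlt
  have : D ^ 2 < D ^ 2 * (ξ * η' - η * ξ') := by
    have := mul_lt_mul_of_pos_left hlt (by positivity : 0 < D ^ 2)
    linarith
  linarith

end

end Pool.Agent.Helper83K9.Cap2
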