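import Mathlib
import Pool.Agent.Helper83K9.Cap2.Point

/-! # The pointwise Jacobian inequality: from the angle to the radial frame -/

set_option autoImplicit false
set_option linter.unusedSectionVars false

open Real MeasureTheory Set Filter Topology

namespace Pool.Agent.Helper83K9.Cap2

open Pool.Agent.Helper83K9.Cap

/-- A kernel of the form `w = 1 / (q ρ³)`, `ρ = √(1 - y²)`, with a primitive `QA` of `qA` in terms
of the angle, and the scalar inequality. -/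
structure SKer (k : ℝ) extends Ker k where
  q : ℝ → ℝ
  Θ : ℝ → ℝ
  mq : Measurable q
  mΘ : Measurable Θ
  B' : ℝ
  q0 : ℝ
  hq0 : 0 < q0
  hq : ∀ y ∈ Icc (-k) k, q0 ≤ q y
  bΘ : ∀ y ∈ Icc (-k) k, |Θ y| ≤ B'
  w_eq : ∀ y ∈ Icc (-k) k, w y = 1 / (q y * √(1 - y ^ 2) ^ 3)
  dQ_eq : ∀ y ∈ Icc (-k) k, dQ y = q y / √(1 - y ^ 2)
  dw_eq : ∀ y ∈ Icc (-k) k,
    dw y = w y * (Θ y + 3 * (y / √(1 - y ^ 2))) / √(1 - y ^ 2)
  QA : ℝ → ℝ
  qA : ℝ → ℝ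
  hQA : ∀ s, HasDerivAt QA (qA s) s
  cqA : Continuous qA
  bqA : ∀ s, |qA s| ≤ 1
  QA_le : ∀ s, |s| ≤ arcsin k → |QA s| ≤ K
  QA_eq : ∀ y ∈ Icc (-k) k, QA (arcsin y) = Q y
  c1 : ℝ
  c3 : ℝ
  scalar : ∀ y ∈ Icc (-k) k, ∀ s, |s| ≤ arcsin k → ∀ w' z : ℝ, 0 < w' →
    z ^ 2 ≤ w' * (qA s / q y) ^ 2 →
    z + (w' * Θ y + 3 * (y / √(1 - y ^ 2)) * (w' - 1)) * ((QA s - Q y) / q y) ≤ maj c1 c3 w'

section

variable {k : ℝ} (κ : SKer k)

/-- the integrand of the differentiated equation -/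
noncomputable def SKer.dff (h p : ℝ → ℝ) (x1 x2 ξ1 ξ2 φ : ℝ) : ℝ :=
  κ.w (lin x1 x2 φ) * p φ
    - (κ.dw (lin x1 x2 φ) * (κ.Q (lin x1 x2 φ) - h φ)
      + κ.w (lin x1 x2 φ) * κ.dQ (lin x1 x2 φ)) * lin ξ1 ξ2 φ

theorem SKer.nice_dff {x1 x2 : ℝ} (hR : x1 ^ 2 + x2 ^ 2 ≤ k ^ 2) {h p : ℝ → ℝ} (hh : Nice h)
    (hp : Nice p) (ξ1 ξ2 : ℝ) : Nice (κ.dff h p x1 x2 ξ1 ξ2) :=
  ((κ.nice_w hR).mul hp).sub ((((κ.nice_dw hR).mul ((κ.nice_Q hR).sub hh)).add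
    ((κ.nice_w hR).mul (κ.nice_dQ hR))).mul (nice_lin ξ1 ξ2))

theorem SKer.pointwise {x1 x2 : ℝ} (hR : x1 ^ 2 + x2 ^ 2 ≤ k ^ 2) {s p r : ℝ → ℝ}
    (ns : Nice (fun φ => κ.QA (s φ)))
    (np : Nice p) (nr : Nice r) (hs : ∀ φ, |s φ| ≤ arcsin k)
    (hpr : ∀ φ, p φ ^ 2 + r φ ^ 2 ≤ κ.qA (s φ) ^ 2)
    (E : ∀ i, ∫ φ in (0 : ℝ)..(2 * π), vv i φ * κ.ff (κ.QA (s φ)) (lin x1 x2 φ) = 0)
    {ξ1 ξ2 ζ1 ζ2 : ℝ}
    (D : ∀ i, ∫ φ in (0 : ℝ)..(2 * π),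
      vv i φ * κ.dff (fun φ => κ.QA (s φ)) p x1 x2 ξ1 ξ2 φ = 0)
    (D' : ∀ i, ∫ φ in (0 : ℝ)..(2 * π),
      vv i φ * κ.dff (fun φ => κ.QA (s φ)) r x1 x2 ζ1 ζ2 φ = 0) :
    ξ1 * ζ2 - ξ2 * ζ1 ≤ √(1 - (x1 ^ 2 + x2 ^ 2)) := by
  obtain ⟨R, β, hR0, hx1, hx2⟩ := exists_polar x1 x2
  have k0 := κ.k0
  have k1 := κ.k1
  have hRR : x1 ^ 2 + x2 ^ 2 = R ^ 2 := by
    rw [hx1, hx2]
    have := sin_sq_add_cos_sq β
    linear_combination R ^ 2 * this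
  have hR' := hR
  rw [hRR] at hR'
  have hk2 : k ^ 2 < 1 := by nlinarith
  rw [hRR]
  set c := √(1 - R ^ 2) with hcdef
  have hc : 0 < c := Real.sqrt_pos.mpr (by linarith)
  have hc2 : c ^ 2 = 1 - R ^ 2 := Real.sq_sqrt (by linarith)
  have hlin : ∀ φ, lin x1 x2 φ = R * cos (φ - β) := by
    intro φ
    unfold lin
    rw [hx1, hx2, cos_sub]; ring
  have hr2 : ∀ φ, 1 - lin x1 x2 φ ^ 2 = rr c β φ ^ 2 := by
    intro φ
    rw [rr_sq hc, hlin]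
    unfold rho2
    rw [hc2]
    have := sin_sq_add_cos_sq (φ - β)
    linear_combination (-1 : ℝ) * this
  have hsq : ∀ φ, √(1 - lin x1 x2 φ ^ 2) = rr c β φ := by
    intro φ
    rw [hr2, Real.sqrt_sq (rr_pos hc φ).le]
  have hrc : ∀ φ, c ≤ rr c β φ := by
    intro φ
    apply le_of_sq_le_sq _ (rr_pos hc φ).le
    rw [← hr2, hc2, hlin]
    have := sin_sq_add_cos_sq (φ - β)
    nlinarith [mul_nonneg (sq_nonneg R) (sq_nonneg (sin (φ - β)))]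
  have hmem : ∀ φ, lin x1 x2 φ ∈ Icc (-k) k := fun φ => lin_mem k0 hR φ
  have hqpos : ∀ φ, 0 < κ.q (lin x1 x2 φ) := fun φ => κ.hq0.trans_le (κ.hq _ (hmem φ))
  have nqi : Nice (fun φ => (κ.q (lin x1 x2 φ))⁻¹) :=
    nice_inv (κ.mq.comp (measurable_lin x1 x2)) κ.hq0 (fun φ => κ.hq _ (hmem φ))
  have nΘ : Nice (fun φ => κ.Θ (lin x1 x2 φ)) :=
    ⟨κ.mΘ.comp (measurable_lin x1 x2), κ.B', fun φ => κ.bΘ _ (hmem φ)⟩
  set F : ℝ → ℝ := fun φ => (κ.QA (s φ) - κ.Q (lin x1 x2 φ)) * (κ.q (lin x1 x2 φ))⁻¹ with hF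
  set P : ℝ → ℝ := fun φ => p φ * (κ.q (lin x1 x2 φ))⁻¹ with hP
  set Rr : ℝ → ℝ := fun φ => r φ * (κ.q (lin x1 x2 φ))⁻¹ with hRr
  set g : ℝ → ℝ := fun φ => κ.qA (s φ) * (κ.q (lin x1 x2 φ))⁻¹ with hg
  have nF : Nice F := (ns.sub (κ.nice_Q hR)).mul nqi
  have nP : Nice P := np.mul nqi
  have nR : Nice Rr := nr.mul nqi
  set τ := R / c with hτ
  have hT : ∀ φ, lin x1 x2 φ / √(1 - lin x1 x2 φ ^ 2) = τ * CC c β φ := by
    intro φ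
    rw [hsq, hlin, hτ]
    have h1 := (rr_pos (β := β) hc φ).ne'
    have hc0 := hc.ne'
    unfold CC
    field_simp
  -- the kernel in terms of `q`, `ρ`
  have hw : ∀ φ, κ.w (lin x1 x2 φ) = (κ.q (lin x1 x2 φ))⁻¹ * (rr c β φ)⁻¹ ^ 3 := by
    intro φ
    rw [κ.w_eq _ (hmem φ), hsq]
    have h1 := (rr_pos (β := β) hc φ).ne'
    have h2 := (hqpos φ).ne'
    field_simp
  have hdQ : ∀ φ, κ.dQ (lin x1 x2 φ) = κ.q (lin x1 x2 φ) * (rr c β φ)⁻¹ := by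
    intro φ
    rw [κ.dQ_eq _ (hmem φ), hsq, div_eq_mul_inv]
  have hdw : ∀ φ, κ.dw (lin x1 x2 φ) = (κ.q (lin x1 x2 φ))⁻¹ * (rr c β φ)⁻¹ ^ 4
      * (κ.Θ (lin x1 x2 φ) + 3 * (τ * CC c β φ)) := by
    intro φ
    rw [κ.dw_eq _ (hmem φ), hT, hsq, hw]
    have h1 := (rr_pos (β := β) hc φ).ne'
    have h2 := (hqpos φ).ne'
    field_simp
  have hm : ∀ φ, κ.m * c ^ 4 ≤ 1 - (κ.Θ (lin x1 x2 φ) + 3 * (τ * CC c β φ)) * F φ := by
    intro φ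
    have h1 := κ.mono _ (hmem φ) (κ.QA (s φ)) (κ.QA_le _ (hs φ))
    have h2 : κ.dw (lin x1 x2 φ) * (κ.Q (lin x1 x2 φ) - κ.QA (s φ))
        + κ.w (lin x1 x2 φ) * κ.dQ (lin x1 x2 φ)
        = (1 - (κ.Θ (lin x1 x2 φ) + 3 * (τ * CC c β φ)) * F φ) * (rr c β φ)⁻¹ ^ 4 := by
      rw [hdw, hw, hdQ]
      simp only [hF]
      have h3 := (hqpos φ).ne'
      have h4 := (rr_pos (β := β) hc φ).ne'
      field_simp
      ring
    rw [h2] at h1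
    have h5 := rr_pos (β := β) hc φ
    have h6 : κ.m * rr c β φ ^ 4 ≤ 1 - (κ.Θ (lin x1 x2 φ) + 3 * (τ * CC c β φ)) * F φ := by
      rw [inv_pow, ← div_eq_mul_inv, le_div_iff₀ (by positivity)] at h1
      exact h1
    have h7 : c ^ 4 ≤ rr c β φ ^ 4 := pow_le_pow_left₀ hc.le (hrc φ) 4
    have h8 := mul_le_mul_of_nonneg_left h7 κ.hm.le
    linarith
  have hPR : ∀ φ, P φ ^ 2 + Rr φ ^ 2 ≤ g φ ^ 2 := by
    intro φ
    simp only [hP, hRr, hg]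
    rw [mul_pow, mul_pow, mul_pow, ← add_mul]
    exact mul_le_mul_of_nonneg_right (hpr φ) (sq_nonneg _)
  have hpt : ∀ φ w z : ℝ, 0 < w → z ^ 2 ≤ w * g φ ^ 2 →
      z + (w * κ.Θ (lin x1 x2 φ) + 3 * (τ * CC c β φ) * (w - 1)) * F φ ≤ maj κ.c1 κ.c3 w := by
    intro φ w z hw0 hz
    have := κ.scalar (lin x1 x2 φ) (hmem φ) (s φ) (hs φ) w z hw0
      (by simpa only [hg, div_eq_mul_inv] using hz)
    rw [hT, div_eq_mul_inv] at this
    exact this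
  have nff := κ.nice_ff hR ns
  have hE := comb_zero nff E β
  have E1 : Av c β (fun φ => CC c β φ * F φ) = 0 := by
    have e : (fun φ => CC c β φ * F φ * aa c β φ)
        = fun φ => (-(c ^ 2 / (2 * π))) * (cos (φ - β) *
          κ.ff (κ.QA (s φ)) (lin x1 x2 φ)) := by
      funext φ
      have h1 := (rr_pos (β := β) hc φ).ne'
      have h2 := (hqpos φ).ne'
      unfold Ker.ff aa CC
      rw [← rr_sq hc, hw]
      simp only [hF]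
      field_simp
      ring
    unfold Av
    rw [e]
    exact (hE _).1
  have hlin2 : ∀ a b φ, lin a b φ = rr c β φ * (((cos β * a + sin β * b) / c) * CC c β φ
      + (-(sin β) * a + cos β * b) * SS c β φ) := by
    intro a b φ
    have h1 := (rr_pos (β := β) hc φ).ne'
    have hc0 := hc.ne'
    unfold CC SS
    have e1 : φ = (φ - β) + β := by ring
    have h3 := sin_sq_add_cos_sq β
    have e2 : cos φ = cos (φ - β) * cos β - sin (φ - β) * sin β := by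
      conv_lhs => rw [e1]
      exact cos_add _ _
    have e3 : sin φ = sin (φ - β) * cos β + cos (φ - β) * sin β := by
      conv_lhs => rw [e1]
      exact sin_add _ _
    unfold lin
    rw [e2, e3]
    field_simp
    ring
  have key0 : ∀ (u : ℝ → ℝ) (a b : ℝ) (φ : ℝ),
      κ.dff (fun φ => κ.QA (s φ)) u x1 x2 a b φ
      = (u φ * (κ.q (lin x1 x2 φ))⁻¹
        - (1 - (κ.Θ (lin x1 x2 φ) + 3 * (τ * CC c β φ)) * F φ)
          * ((cos β * a + sin β * b) / c * CC c β φ + (-(sin β) * a + cos β * b) * SS c β φ))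
        * (rr c β φ)⁻¹ ^ 3 := by
    intro u a b φ
    unfold SKer.dff
    rw [hdw, hw, hdQ, hlin2 a b φ]
    set W := (cos β * a + sin β * b) / c * CC c β φ + (-(sin β) * a + cos β * b) * SS c β φ
    simp only [hF]
    have h3 := (hqpos φ).ne'
    have h4 := (rr_pos (β := β) hc φ).ne'
    field_simp
    ring
  have e1 : ∀ (u : ℝ → ℝ) (a b : ℝ), (fun φ => (CC c β φ * (u φ * (κ.q (lin x1 x2 φ))⁻¹
        - (1 - (κ.Θ (lin x1 x2 φ) + 3 * (τ * CC c β φ)) * F φ)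
          * ((cos β * a + sin β * b) / c * CC c β φ + (-(sin β) * a + cos β * b) * SS c β φ)))
        * aa c β φ)
      = fun φ => (c ^ 2 / (2 * π)) * (cos (φ - β) *
        κ.dff (fun φ => κ.QA (s φ)) u x1 x2 a b φ) := by
    intro u a b
    funext φ
    have h1 := (rr_pos (β := β) hc φ).ne'
    rw [key0]
    set Z := u φ * (κ.q (lin x1 x2 φ))⁻¹
        - (1 - (κ.Θ (lin x1 x2 φ) + 3 * (τ * CC c β φ)) * F φ)
          * ((cos β * a + sin β * b) / c * CC c β φ + (-(sin β) * a + cos β * b) * SS c β φ)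
    unfold aa CC
    rw [← rr_sq hc]
    field_simp
  have e2 : ∀ (u : ℝ → ℝ) (a b : ℝ), (fun φ => (SS c β φ * (u φ * (κ.q (lin x1 x2 φ))⁻¹
        - (1 - (κ.Θ (lin x1 x2 φ) + 3 * (τ * CC c β φ)) * F φ)
          * ((cos β * a + sin β * b) / c * CC c β φ + (-(sin β) * a + cos β * b) * SS c β φ)))
        * aa c β φ)
      = fun φ => (c / (2 * π)) * (sin (φ - β) *
        κ.dff (fun φ => κ.QA (s φ)) u x1 x2 a b φ) := by
    intro u a b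
    funext φ
    have h1 := (rr_pos (β := β) hc φ).ne'
    rw [key0]
    set Z := u φ * (κ.q (lin x1 x2 φ))⁻¹
        - (1 - (κ.Θ (lin x1 x2 φ) + 3 * (τ * CC c β φ)) * F φ)
          * ((cos β * a + sin β * b) / c * CC c β φ + (-(sin β) * a + cos β * b) * SS c β φ)
    unfold aa SS
    rw [← rr_sq hc]
    field_simp
  have hD := comb_zero (κ.nice_dff hR ns np ξ1 ξ2) D β
  have hD' := comb_zero (κ.nice_dff hR ns nr ζ1 ζ2) D' β
  have hfin := av_pointwise2 hc (τ := τ) (c1 := κ.c1) (c3 := κ.c3) nF nP nR nΘ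
    (δ := κ.m * c ^ 4) (mul_pos κ.hm (by positivity)) hm hPR hpt E1
    (ξ := (cos β * ξ1 + sin β * ξ2) / c) (η := -(sin β) * ξ1 + cos β * ξ2)
    (ξ' := (cos β * ζ1 + sin β * ζ2) / c) (η' := -(sin β) * ζ1 + cos β * ζ2)
    (by unfold Av; simp only [hP]; rw [e1 p ξ1 ξ2]; exact (hD _).1)
    (by unfold Av; simp only [hP]; rw [e2 p ξ1 ξ2]; exact (hD _).2)
    (by unfold Av; simp only [hRr]; rw [e1 r ζ1 ζ2]; exact (hD' _).1)
    (by unfold Av; simp only [hRr]; rw [e2 r ζ1 ζ2]; exact (hD' _).2)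
  have h3 := sin_sq_add_cos_sq β
  have h4 : (cos β * ξ1 + sin β * ξ2) / c * (-(sin β) * ζ1 + cos β * ζ2)
      - (-(sin β) * ξ1 + cos β * ξ2) * ((cos β * ζ1 + sin β * ζ2) / c)
      = (ξ1 * ζ2 - ξ2 * ζ1) / c := by
    field_simp
    linear_combination (ξ1 * ζ2 - ξ2 * ζ1) * h3
  rw [h4, div_le_one hc] at hfin
  exact hfin

end

end Pool.Agent.Helper83K9.Cap2
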