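import Mathlib
import Pool.Agent.Helper83K9.Cap.Jac
import Pool.Agent.Helper83K9.Cap.Loop
import Pool.Agent.Helper83K9.Cap2.Frame

/-! # The Jacobian of the estimator in a chart, for a general kernel -/

set_option autoImplicit false
set_option linter.unusedSectionVars false

open Real MeasureTheory Set Filter Topology

namespace Pool.Agent.Helper83K9.Cap2

open Pool.Agent.Helper83K9.Cap
open Pool.Agent.H115R3.Filling Pool.Agent.W664.Fill

section

variable {k : ℝ} (κ : SKer k)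

theorem SKer.hasDerivAt_ff_line {h : ℝ → ℝ → ℝ} {X1 X2 : ℝ → ℝ} {p : ℝ → ℝ} {ξ1 ξ2 φ t : ℝ}
    (hR : X1 t ^ 2 + X2 t ^ 2 ≤ k ^ 2)
    (dh : HasDerivAt (fun t => h t φ) (p φ) t) (d1 : HasDerivAt X1 ξ1 t)
    (d2 : HasDerivAt X2 ξ2 t) :
    HasDerivAt (fun t => κ.ff (h t φ) (lin (X1 t) (X2 t) φ))
      (-κ.dff (h t) p (X1 t) (X2 t) ξ1 ξ2 φ) t := by
  have hy : HasDerivAt (fun t => lin (X1 t) (X2 t) φ) (lin ξ1 ξ2 φ) t := by
    unfold lin
    exact (d1.mul_const _).fun_add (d2.mul_const _)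
  have hm := lin_mem κ.k0 hR φ
  have h1 := (κ.hw _ hm).comp t hy
  have h2 := (κ.hQ _ hm).comp t hy
  have h3 := h1.fun_mul (h2.fun_sub dh)
  unfold Ker.ff
  refine h3.congr_deriv ?_
  unfold SKer.dff
  simp only [Function.comp_apply]
  ring

theorem SKer.deriv_eqn {h : ℝ → ℝ → ℝ} {X1 X2 : ℝ → ℝ} {C ε : ℝ}
    (hε : 0 < ε) (nh : ∀ t, Nice (h t)) (hh : ∀ t φ, |h t φ| ≤ κ.K)
    (hX : ∀ t, X1 t ^ 2 + X2 t ^ 2 ≤ k ^ 2)
    (lh : ∀ t ∈ Metric.ball (0 : ℝ) ε, ∀ t' ∈ Metric.ball (0 : ℝ) ε, ∀ φ,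
      |h t φ - h t' φ| ≤ C * |t - t'|)
    (l1 : ∀ t ∈ Metric.ball (0 : ℝ) ε, ∀ t' ∈ Metric.ball (0 : ℝ) ε,
      |X1 t - X1 t'| ≤ C * |t - t'|)
    (l2 : ∀ t ∈ Metric.ball (0 : ℝ) ε, ∀ t' ∈ Metric.ball (0 : ℝ) ε,
      |X2 t - X2 t'| ≤ C * |t - t'|)
    {p : ℝ → ℝ} (np : Nice p) {ξ1 ξ2 : ℝ}
    (dh : ∀ᵐ φ ∂(volume : Measure ℝ), HasDerivAt (fun t => h t φ) (p φ) 0)
    (d1 : HasDerivAt X1 ξ1 0) (d2 : HasDerivAt X2 ξ2 0) (i : Fin 2)
    (hE : ∀ᶠ t in 𝓝 (0 : ℝ),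
      ∫ φ in (0 : ℝ)..(2 * π), vv i φ * κ.ff (h t φ) (lin (X1 t) (X2 t) φ) = 0) :
    ∫ φ in (0 : ℝ)..(2 * π), vv i φ * κ.dff (h 0) p (X1 0) (X2 0) ξ1 ξ2 φ = 0 := by
  have L0 := κ.L0
  have nF : ∀ t, Nice (fun φ => vv i φ * κ.ff (h t φ) (lin (X1 t) (X2 t) φ)) := fun t =>
    (κ.nice_ff (hX t) (nh t)).comb i
  have nF' : Nice (fun φ => vv i φ * (-κ.dff (h 0) p (X1 0) (X2 0) ξ1 ξ2 φ)) :=
    ((κ.nice_dff (hX 0) (nh 0) np ξ1 ξ2).neg).comb i
  have key := intervalIntegral.hasDerivAt_integral_of_dominated_loc_of_lip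
    (μ := volume) (a := 0) (b := 2 * π) (bound := fun _ => 3 * κ.L * C)
    (F := fun t φ => vv i φ * κ.ff (h t φ) (lin (X1 t) (X2 t) φ))
    (F' := fun φ => vv i φ * (-κ.dff (h 0) p (X1 0) (X2 0) ξ1 ξ2 φ))
    (Metric.ball_mem_nhds (0 : ℝ) hε)
    (Eventually.of_forall fun t => (nF t).1.aestronglyMeasurable)
    ((nF 0).intervalIntegrable _ _) nF'.1.aestronglyMeasurable
    (Eventually.of_forall fun φ _ => by
      apply LipschitzOnWith.of_dist_le_mul
      intro t ht t' ht'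
      rw [Real.dist_eq, Real.dist_eq, Real.coe_nnabs]
      show |vv i φ * κ.ff (h t φ) (lin (X1 t) (X2 t) φ)
        - vv i φ * κ.ff (h t' φ) (lin (X1 t') (X2 t') φ)| ≤ _
      rw [← mul_sub, abs_mul]
      have b1 := abs_vv_le i φ
      have b2 := lh t ht t' ht' φ
      have b3 := l1 t ht t' ht'
      have b4 := l2 t ht t' ht'
      have b5 := lin_sub (X1 t) (X2 t) (X1 t') (X2 t') φ
      have b6 := κ.ff_lip (H := h t φ) (hh t φ) (lin_mem κ.k0 (hX t') φ) (lin_mem κ.k0 (hX t) φ)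
      have b7 := κ.ff_lip' (H := h t φ) (H' := h t' φ) (lin_mem κ.k0 (hX t') φ)
      have b8 : |κ.ff (h t φ) (lin (X1 t) (X2 t) φ) - κ.ff (h t' φ) (lin (X1 t') (X2 t') φ)|
          ≤ 3 * κ.L * C * |t - t'| := by
        have e : κ.ff (h t φ) (lin (X1 t) (X2 t) φ) - κ.ff (h t' φ) (lin (X1 t') (X2 t') φ)
            = (κ.ff (h t φ) (lin (X1 t) (X2 t) φ) - κ.ff (h t φ) (lin (X1 t') (X2 t') φ))
              + (κ.ff (h t φ) (lin (X1 t') (X2 t') φ)
                - κ.ff (h t' φ) (lin (X1 t') (X2 t') φ)) := by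
          ring
        rw [e]
        refine (abs_add_le _ _).trans ?_
        have b9 : κ.L * |lin (X1 t) (X2 t) φ - lin (X1 t') (X2 t') φ|
            ≤ κ.L * (2 * (C * |t - t'|)) := mul_le_mul_of_nonneg_left (by linarith) L0
        have b10 : κ.L * |h t φ - h t' φ| ≤ κ.L * (C * |t - t'|) :=
          mul_le_mul_of_nonneg_left b2 L0
        linarith
      calc |vv i φ| * |κ.ff (h t φ) (lin (X1 t) (X2 t) φ)
              - κ.ff (h t' φ) (lin (X1 t') (X2 t') φ)|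
          ≤ 1 * (3 * κ.L * C * |t - t'|) := mul_le_mul b1 b8 (abs_nonneg _) zero_le_one
        _ ≤ |3 * κ.L * C| * |t - t'| := by
          rw [one_mul]
          exact mul_le_mul_of_nonneg_right (le_abs_self _) (abs_nonneg _))
    (by simp)
    (by
      filter_upwards [dh] with φ hφ _
      exact (κ.hasDerivAt_ff_line (hX 0) hφ d1 d2).const_mul (vv i φ))
  have h0 : HasDerivAt (fun t => ∫ φ in (0 : ℝ)..(2 * π), vv i φ *
      κ.ff (h t φ) (lin (X1 t) (X2 t) φ)) 0 0 :=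
    (hasDerivAt_const (0 : ℝ) (0 : ℝ)).congr_of_eventuallyEq hE
  have h1 := key.2.unique h0
  have h2 : (fun φ => vv i φ * (-κ.dff (h 0) p (X1 0) (X2 0) ξ1 ξ2 φ))
      = fun φ => -(vv i φ * κ.dff (h 0) p (X1 0) (X2 0) ξ1 ξ2 φ) := by
    funext φ; ring
  rw [h2, intervalIntegral.integral_neg] at h1
  linarith

theorem SKer.QA_lip (a b : ℝ) : |κ.QA a - κ.QA b| ≤ |a - b| := by
  have := abs_sub_le_of_deriv (f := κ.QA) (f' := κ.qA) (B := 1) κ.hQA κ.bqA b a
  simpa using this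

theorem SKer.continuous_QA : Continuous κ.QA :=
  continuous_iff_continuousAt.mpr fun s => (κ.hQA s).continuousAt

variable {M : Type} [MetricSpace M] (S : OrientedSurface M)

/-- the function of the equation -/
noncomputable def SKer.H (z : M) (φ : ℝ) : ℝ := κ.QA (sfun S k φ z)

theorem SKer.H_lip (φ φ' : ℝ) (x y : M) : |κ.H S x φ - κ.H S y φ'| ≤ |φ - φ'| + dist x y :=
  (κ.QA_lip _ _).trans (sfun_lip S κ.k0.le κ.k1.le φ φ' x y)

theorem continuous_sfun {k : ℝ} (hk : 0 ≤ k) (hk1 : k ≤ 1) (z : M) :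
    Continuous (fun φ => sfun S k φ z) := by
  have : LipschitzWith 1 (fun φ => sfun S k φ z) := LipschitzWith.of_dist_le_mul fun φ φ' => by
    have := sfun_lip S hk hk1 φ φ' z z
    simpa [Real.dist_eq] using this
  exact this.continuous

theorem SKer.nice_H (z : M) : Nice (κ.H S z) :=
  ⟨(κ.continuous_QA.comp (continuous_sfun S κ.k0.le κ.k1.le z)).measurable, κ.K,
    fun φ => κ.QA_le _ (sfun_abs S κ.k0.le φ z)⟩

theorem SKer.H_le (z : M) (φ : ℝ) : |κ.H S z φ| ≤ κ.K := κ.QA_le _ (sfun_abs S κ.k0.le φ z)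

/-- The estimator. -/
structure SKer.Est (X : M → ℝ × ℝ) : Prop where
  vi : ∀ z, κ.VI (κ.H S z) (X z)

theorem SKer.exists_est : ∃ X : M → ℝ × ℝ, κ.Est S X := by
  have h : ∀ z : M, ∃ x, κ.VI (κ.H S z) x := fun z =>
    κ.exists_VI (κ.nice_H S z) (κ.H_le S z)
  choose X hX using h
  exact ⟨X, ⟨hX⟩⟩

/-- the Lipschitz constant of the estimator -/
noncomputable def SKer.Λ' : ℝ := κ.Λ + 1

theorem SKer.Λ'_pos : 0 < κ.Λ' := by
  have := κ.Λ0
  unfold SKer.Λ'
  linarith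

variable {S} {κ}

theorem SKer.Est.lip {X : M → ℝ × ℝ} (hX : κ.Est S X) (z w : M) :
    √(((X z).1 - (X w).1) ^ 2 + ((X z).2 - (X w).2) ^ 2) ≤ κ.Λ' * dist z w := by
  have h := κ.VI_lip (κ.nice_H S w) (κ.nice_H S z) (κ.H_le S w)
    (δ := dist z w) (fun φ => by
      have := κ.H_lip S φ φ w z
      rw [dist_comm w z] at this
      simpa using this) (hX.vi w) (hX.vi z)
  refine h.trans (mul_le_mul_of_nonneg_right ?_ dist_nonneg)
  unfold SKer.Λ'
  linarith

theorem SKer.Est.lip1 {X : M → ℝ × ℝ} (hX : κ.Est S X) (z w : M) :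
    |(X z).1 - (X w).1| ≤ κ.Λ' * dist z w :=
  (Real.abs_le_sqrt (by nlinarith [sq_nonneg ((X z).2 - (X w).2)])).trans (hX.lip z w)

theorem SKer.Est.lip2 {X : M → ℝ × ℝ} (hX : κ.Est S X) (z w : M) :
    |(X z).2 - (X w).2| ≤ κ.Λ' * dist z w :=
  (Real.abs_le_sqrt (by nlinarith [sq_nonneg ((X z).1 - (X w).1)])).trans (hX.lip z w)

/-- the differentiated equation in a chart -/
theorem SKer.chart_deqn {X : M → ℝ × ℝ} (hX : κ.Est S X) (i : Fin S.faces) {x : ℝ × ℝ}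
    (hx : x ∈ Sqo)
    (hd : ∀ᵐ φ ∂(volume : Measure ℝ), DifferentiableAt ℝ (fun p => sfun S k φ (S.chart i p)) x)
    (d1 : DifferentiableAt ℝ (fun p => (X (S.chart i p)).1) x)
    (d2 : DifferentiableAt ℝ (fun p => (X (S.chart i p)).2) x)
    (hint : (X (S.chart i x)).1 ^ 2 + (X (S.chart i x)).2 ^ 2 < k ^ 2) (e : ℝ × ℝ)
    {p : ℝ → ℝ} (np : Nice p)
    (hp : ∀ φ, p φ = κ.qA (sfun S k φ (S.chart i x)) *
      fderiv ℝ (fun p => sfun S k φ (S.chart i p)) x e) (j : Fin 2) :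
    ∫ φ in (0 : ℝ)..(2 * π), vv j φ * κ.dff (κ.H S (S.chart i x)) p (X (S.chart i x)).1
      (X (S.chart i x)).2 (fderiv ℝ (fun p => (X (S.chart i p)).1) x e)
      (fderiv ℝ (fun p => (X (S.chart i p)).2) x e) φ = 0 := by
  obtain ⟨C, hC0, hC⟩ := chart_dist S i
  have hcont : Continuous (fun t : ℝ => x + t • e) := by fun_prop
  have hev : ∀ᶠ t in 𝓝 (0 : ℝ), x + t • e ∈ Sqo := by
    apply hcont.continuousAt.eventually
    apply isOpen_Sqo.mem_nhds
    simpa using hx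
  obtain ⟨ε, hε, hball⟩ := Metric.eventually_nhds_iff.mp hev
  have hmem : ∀ t ∈ Metric.ball (0 : ℝ) ε, x + t • e ∈ Sq := fun t ht =>
    Sqo_sub (hball (Metric.mem_ball.mp ht))
  have hdist : ∀ t ∈ Metric.ball (0 : ℝ) ε, ∀ t' ∈ Metric.ball (0 : ℝ) ε,
      dist (S.chart i (x + t • e)) (S.chart i (x + t' • e)) ≤ (C * ‖e‖) * |t - t'| := by
    intro t ht t' ht'
    refine (hC _ (hmem t ht) _ (hmem t' ht')).trans (le_of_eq ?_)
    have e1 : x + t • e - (x + t' • e) = (t - t') • e := by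
      rw [sub_smul]; abel
    rw [e1, norm_smul, Real.norm_eq_abs]
    ring
  have hx0 : x + (0 : ℝ) • e = x := by simp
  have hΛ := κ.Λ'_pos
  have hΛ1 : 1 ≤ κ.Λ' := by
    have := κ.Λ0
    unfold SKer.Λ'
    linarith
  have key := κ.deriv_eqn (h := fun t => κ.H S (S.chart i (x + t • e)))
    (X1 := fun t => (X (S.chart i (x + t • e))).1) (X2 := fun t => (X (S.chart i (x + t • e))).2)
    (C := κ.Λ' * (C * ‖e‖)) hε (fun t => κ.nice_H S _) (fun t => κ.H_le S _)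
    (fun t => (hX.vi _).1)
    (fun t ht t' ht' φ => by
      have h1 := κ.H_lip S φ φ (S.chart i (x + t • e)) (S.chart i (x + t' • e))
      have h2 := hdist t ht t' ht'
      have h3 : 0 ≤ (C * ‖e‖) * |t - t'| := by positivity
      rw [sub_self, abs_zero, zero_add] at h1
      nlinarith)
    (fun t ht t' ht' => by
      have h1 := hX.lip1 (S.chart i (x + t • e)) (S.chart i (x + t' • e))
      have h2 := mul_le_mul_of_nonneg_left (hdist t ht t' ht') hΛ.le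
      linarith)
    (fun t ht t' ht' => by
      have h1 := hX.lip2 (S.chart i (x + t • e)) (S.chart i (x + t' • e))
      have h2 := mul_le_mul_of_nonneg_left (hdist t ht t' ht') hΛ.le
      linarith)
    np
    (by
      filter_upwards [hd] with φ hφ
      have h1 := (κ.hQA (sfun S k φ (S.chart i (x + (0 : ℝ) • e)))).comp (0 : ℝ)
        (lineDeriv_of hφ e)
      refine h1.congr_deriv ?_
      rw [hp φ, hx0])
    (lineDeriv_of d1 e) (lineDeriv_of d2 e) j
    (by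
      have hc1 : ContinuousAt (fun t : ℝ => (X (S.chart i (x + t • e))).1) 0 :=
        (lineDeriv_of d1 e).continuousAt
      have hc2 : ContinuousAt (fun t : ℝ => (X (S.chart i (x + t • e))).2) 0 :=
        (lineDeriv_of d2 e).continuousAt
      have hc3 := (hc1.pow 2).add (hc2.pow 2)
      have h0 := hc3.eventually (gt_mem_nhds (a := k ^ 2) (by simpa using hint))
      filter_upwards [h0] with t ht
      exact κ.VI_eqn (hX.vi _) ht j)
  simp only [hx0] at key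
  exact key

theorem SKer.chart_jac {X : M → ℝ × ℝ} (hX : κ.Est S X) (i : Fin S.faces) :
    ∀ᵐ x ∂(volume.restrict Sqo), DifferentiableAt ℝ (fun p => (X (S.chart i p)).1) x ∧
      DifferentiableAt ℝ (fun p => (X (S.chart i p)).2) x ∧
      jac (fun p => (X (S.chart i p)).1) (fun p => (X (S.chart i p)).2) x
        ≤ √(1 - ((X (S.chart i x)).1 ^ 2 + (X (S.chart i x)).2 ^ 2)) *
          √((S.metric i).E x * (S.metric i).G x - (S.metric i).F x ^ 2) := by
  have hk0 := κ.k0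
  have hk1 := κ.k1.le
  filter_upwards [ae_ae_diff S hk0.le hk1 i, ae_diff_of_lip κ.Λ'_pos hX.lip1 i,
    ae_diff_of_lip κ.Λ'_pos hX.lip2 i,
    self_mem_ae_restrict isOpen_Sqo.measurableSet] with x hd d1 d2 hxo
  refine ⟨d1, d2, ?_⟩
  have hxS := Sqo_sub hxo
  set E := (S.metric i).E x with hE
  set F := (S.metric i).F x with hF
  set G := (S.metric i).G x with hG
  have hEpos : 0 < E := (S.metric i).pos_E x hxS
  have hDet : 0 < E * G - F ^ 2 := (S.metric i).pos_det x hxS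
  set D := √(E * G - F ^ 2) with hD
  have hDpos : 0 < D := Real.sqrt_pos.mpr hDet
  have hD2 : D ^ 2 = E * G - F ^ 2 := Real.sq_sqrt hDet.le
  set z := S.chart i x with hz'
  have hle := (hX.vi z).1
  rcases lt_or_eq_of_le hle with hlt | heq
  swap
  · rw [jac_eq_zero (κ := k ^ 2) (by positivity) d1 d2 heq (fun y => (hX.vi _).1)]
    positivity
  set rE := √E with hrE
  have hrEpos : 0 < rE := Real.sqrt_pos.mpr hEpos
  have hrE2 : rE ^ 2 = E := Real.sq_sqrt hEpos.le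
  set e1 : ℝ × ℝ := (1 / rE, 0) with he1
  set e2 : ℝ × ℝ := (-F / (rE * D), rE / D) with he2
  have hlinE : ∀ (L : ℝ × ℝ →L[ℝ] ℝ), L e1 = L (1, 0) / rE := by
    intro L
    have : e1 = (1 / rE) • ((1, 0) : ℝ × ℝ) := by simp [he1]
    rw [this, map_smul, smul_eq_mul]; ring
  have hlinE2 : ∀ (L : ℝ × ℝ →L[ℝ] ℝ), L e2 = -F / (rE * D) * L (1, 0) + rE / D * L (0, 1) := by
    intro L
    have : e2 = (-F / (rE * D)) • ((1, 0) : ℝ × ℝ) + (rE / D) • ((0, 1) : ℝ × ℝ) := by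
      simp [he2]
    rw [this, map_add, map_smul, map_smul, smul_eq_mul, smul_eq_mul]
  -- the derivatives of the functions `s`
  set dd : ℝ → (ℝ × ℝ →L[ℝ] ℝ) := fun φ => fderiv ℝ (fun p => sfun S k φ (S.chart i p)) x with hdd
  have hquad : ∀ φ (v : ℝ × ℝ), (dd φ v) ^ 2 ≤ E * v.1 ^ 2 + 2 * F * v.1 * v.2 + G * v.2 ^ 2 := by
    intro φ v
    by_cases hdiff : DifferentiableAt ℝ (fun p => sfun S k φ (S.chart i p)) x
    · exact (segLip_of S (sfun_lip_z S hk0.le hk1 φ) i).deriv_le hxo hdiff v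
    · simp only [hdd]
      rw [fderiv_zero_of_not_differentiableAt hdiff]
      have := (S.metric i).quad_nonneg hxS v.1 v.2
      simpa using this
  have hon : ∀ φ, dd φ e1 ^ 2 + dd φ e2 ^ 2 ≤ 1 := by
    intro φ
    set a := dd φ e1 with ha
    set b := dd φ e2 with hb
    have h1 := hquad φ (a • e1 + b • e2)
    have h2 : dd φ (a • e1 + b • e2) = a ^ 2 + b ^ 2 := by
      rw [map_add, map_smul, map_smul, smul_eq_mul, smul_eq_mul, ← ha, ← hb]; ring
    have h3 : E * (a • e1 + b • e2).1 ^ 2 + 2 * F * (a • e1 + b • e2).1 * (a • e1 + b • e2).2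
        + G * (a • e1 + b • e2).2 ^ 2 = a ^ 2 + b ^ 2 := by
      simp only [he1, he2, Prod.fst_add, Prod.smul_fst, Prod.snd_add, Prod.smul_snd, smul_eq_mul,
        mul_zero, zero_add]
      rw [← hrE2]
      have hG' : G = (D ^ 2 + F ^ 2) / rE ^ 2 := by
        rw [hD2, hrE2]; field_simp; ring
      rw [hG']
      field_simp
      ring
    rw [h2, h3] at h1
    by_contra hcon
    push Not at hcon
    nlinarith
  have hbd : ∀ φ, |dd φ e1| ≤ 1 ∧ |dd φ e2| ≤ 1 := by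
    intro φ
    have := hon φ
    constructor
    · rw [← sq_le_one_iff_abs_le_one]; nlinarith [sq_nonneg (dd φ e2)]
    · rw [← sq_le_one_iff_abs_le_one]; nlinarith [sq_nonneg (dd φ e1)]
  have hfch : ∀ φ e, dd φ e = fderiv ℝ (fch S k i φ) x e := by
    intro φ e
    simp only [hdd]
    rw [(fch_eventually S i φ hxo).fderiv_eq]
  have hqm : Measurable (fun φ => κ.qA (sfun S k φ z)) :=
    (κ.cqA.comp (continuous_sfun S hk0.le hk1 z)).measurable
  have np : ∀ e, (∀ φ, |dd φ e| ≤ 1) → Nice (fun φ => κ.qA (sfun S k φ z) * dd φ e) := by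
    intro e he
    have h1 : Measurable (fun φ => dd φ e) := by
      have : (fun φ => dd φ e) = fun φ => fderiv ℝ (fch S k i φ) x e := funext fun φ => hfch φ e
      rw [this]
      exact measurable_fderiv_fch S hk0.le hk1 i x e
    exact Nice.mul ⟨hqm, 1, fun φ => κ.bqA _⟩ ⟨h1, 1, he⟩
  have n1 := np e1 (fun φ => (hbd φ).1)
  have n2 := np e2 (fun φ => (hbd φ).2)
  have D1 := chart_deqn hX i hxo hd d1 d2 hlt e1 n1 (fun φ => rfl)
  have D2 := chart_deqn hX i hxo hd d1 d2 hlt e2 n2 (fun φ => rfl)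
  have hpt := κ.pointwise hle (s := fun φ => sfun S k φ z) (κ.nice_H S z) n1 n2
    (fun φ => sfun_abs S hk0.le φ z)
    (fun φ => by
      have h1 := hon φ
      have h2 := sq_nonneg (κ.qA (sfun S k φ z))
      rw [mul_pow, mul_pow, ← mul_add]
      nlinarith)
    (fun j => κ.VI_eqn (hX.vi z) hlt j) D1 D2
  rw [hlinE, hlinE, hlinE2, hlinE2] at hpt
  have hj : jac (fun p => (X (S.chart i p)).1) (fun p => (X (S.chart i p)).2) x / D
      ≤ √(1 - ((X z).1 ^ 2 + (X z).2 ^ 2)) := by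
    refine le_trans (le_of_eq ?_) hpt
    unfold jac
    field_simp
    ring
  rwa [div_le_iff₀ hDpos] at hj

end

end Pool.Agent.Helper83K9.Cap2
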