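import Mathlib
import Pool.Agent.H115R3.Filling.Defs

/-! # Replacing a disc of the round hemisphere by a surface -/

set_option autoImplicit false

namespace Pool.Agent.Helper83K9.Cap2

open Pool.Agent.H115R3.Filling

/-- In the closed upper unit hemisphere consider the circle of radius `r` about the point of
colatitude `c` and longitude `0`, parametrised by the angle `t`:
`P t = (cos r sin c + sin r cos c cos t, sin r sin t, cos r cos c - sin r sin c cos t)`.
This is the inner product of `P t` with the point `(cos s, sin s, 0)` of the equator. -/
noncomputable def eqDot (r c s t : ℝ) : ℝ :=
  Real.cos s * (Real.cos r * Real.sin c + Real.sin r * Real.cos c * Real.cos t)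
    + Real.sin s * (Real.sin r * Real.sin t)

/-- The surface `T` is the upper unit hemisphere in which the closed disc of radius `r` about the
point of colatitude `c` and longitude `ω` is replaced by the surface `S`. -/
structure DiscReplaced {N M : Type} [MetricSpace N] [MetricSpace M] (T : OrientedSurface N)
    (S : OrientedSurface M) (r : ℝ) where
  /-- colatitude of the centre of the disc -/
  c : ℝ
  /-- longitude of the centre of the disc -/
  ω : ℝ
  c_nonneg : 0 ≤ c
  /-- the disc is contained in the hemisphere -/
  c_le : c + r ≤ Real.pi / 2
  /-- the inclusion of the new piece -/
  incl : M → N
  /-- distances in the new piece are at least those in the whole surface -/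
  incl_le : ∀ x y, dist (incl x) (incl y) ≤ dist x y
  /-- If the great circle arc from the boundary point of longitude `s` to the point `P t` of the
  boundary of the disc arrives at the disc from outside, it is a path in `T`. (The inequality says
  that its angle with the radius of the disc is at least a right angle.) -/
  outer : ∀ s t : ℝ, Real.sin c * Real.cos (s - ω) ≤ Real.cos r * eqDot r c (s - ω) t →
    dist (T.boundary (s : AddCircle (2 * Real.pi)))
      (incl (S.boundary (t : AddCircle (2 * Real.pi)))) ≤ Real.arccos (eqDot r c (s - ω) t)
  /-- the area of `T` is that of `S` and of the complement of the disc in the hemisphere -/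
  area_eq : T.area = S.area + (2 * Real.pi - 2 * Real.pi * (1 - Real.cos r))

end Pool.Agent.Helper83K9.Cap2
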