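import Mathlib
import Pool.Agent.Helper83K9.Cap2.Frame

/-! # The kernel for caps of radius less than `π / 4` -/

set_option autoImplicit false

open Real MeasureTheory Set Filter Topology

namespace Pool.Agent.Helper83K9.Cap2

open Pool.Agent.Helper83K9.Cap

theorem poly_nonneg {w s : ℝ} (hw : 0 < w) (hs0 : 0 < s) :
    0 ≤ s ^ 2 + 2 * s ^ 2 * w + (39 * s ^ 2 - 36 * s) * w ^ 2
      + (48 - 84 * s + 50 * s ^ 2) * w ^ 3
      + (96 - 132 * s - 20 * s ^ 2 + 81 * s ^ 3) * w ^ 4 := by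
  have h1 : 0 ≤ 15 - 42 * s + 51 * s ^ 2 := by nlinarith [sq_nonneg (51 * s - 21)]
  have h2 : 0 ≤ 15 - 6 * s - 69 * s ^ 2 + 81 * s ^ 3 := by
    nlinarith [mul_nonneg hs0.le (sq_nonneg (9 * s - 11 / 2)), sq_nonneg (s - 3 / 5)]
  have e : s ^ 2 + 2 * s ^ 2 * w + (39 * s ^ 2 - 36 * s) * w ^ 2
      + (48 - 84 * s + 50 * s ^ 2) * w ^ 3
      + (96 - 132 * s - 20 * s ^ 2 + 81 * s ^ 3) * w ^ 4
      = (s - (9 - 7 * s) * w ^ 2) ^ 2 + (15 - 6 * s - 69 * s ^ 2 + 81 * s ^ 3) * w ^ 4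
        + 2 * w * (s - (9 - 7 * s) * w / 2) ^ 2 + (15 - 42 * s + 51 * s ^ 2) * (w ^ 3 / 2)
        + 11 * s ^ 2 * w ^ 2 := by ring
  rw [e]
  positivity

/-- the scalar inequality -/
theorem scalar_ineq {T p w z F : ℝ} (hT : T ^ 2 < 1) (hp : p * (1 - T ^ 2) = 2 * T) (hw : 0 < w)
    (hz : z ^ 2 ≤ w * (1 - 4 * p * F - 4 * F ^ 2)) :
    z + (w * (2 * p) + 3 * T * (w - 1)) * F ≤ maj (5 / 6) 0 w := by
  set s := 1 - T ^ 2 with hs
  have hs0 : 0 < s := by linarith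
  have hs1 : s ≤ 1 := by nlinarith [sq_nonneg T]
  have hp' : p = 2 * T / s := by rw [eq_div_iff hs0.ne']; exact hp
  set n := maj (5 / 6) 0 w with hn
  have hn' : n = 5 / 6 * w + 1 / 6 * w⁻¹ ^ 2 := by rw [hn]; unfold maj; ring
  set t := w * p + 3 / 2 * T * (w - 1) with ht
  have hv : T ^ 2 = 1 - s := by rw [hs]; ring
  -- the polynomial inequality
  have hE : (w + t ^ 2) * (1 + p ^ 2) ≤ (n + t * p) ^ 2 := by
    have hP := poly_nonneg hw hs0
    set P := s ^ 2 + 2 * s ^ 2 * w + (39 * s ^ 2 - 36 * s) * w ^ 2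
      + (48 - 84 * s + 50 * s ^ 2) * w ^ 3
      + (96 - 132 * s - 20 * s ^ 2 + 81 * s ^ 3) * w ^ 4 with hPd
    have e : (n + t * p) ^ 2 - (w + t ^ 2) * (1 + p ^ 2)
        = (w - 1) ^ 2 * P / (36 * w ^ 4 * s ^ 2) := by
      rw [ht, hp', hn', hPd]
      field_simp
      ring_nf
      rw [hv]
      ring
    have h2 : 0 ≤ (w - 1) ^ 2 * P / (36 * w ^ 4 * s ^ 2) := by positivity
    linarith
  have hnt : 0 ≤ n + t * p := by
    set x := T ^ 2 / s with hx
    have hx0 : 0 ≤ x := by positivity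
    have e1 : n + t * p = (24 * w ^ 3 * x ^ 2 + 6 * w ^ 2 * (7 * w - 3) * x + 5 * w ^ 3 + 1)
        / (6 * w ^ 2) := by
      rw [ht, hp', hn', hx]
      have hs' : s = 1 - T ^ 2 := hs
      field_simp
      rw [hs']
      ring
    rw [e1]
    apply div_nonneg _ (by positivity)
    rcases le_total (3 / 7) w with h | h
    · have : 0 ≤ 7 * w - 3 := by linarith
      positivity
    · have h3 : 0 ≤ 1 - 27 / 8 * w + 63 / 8 * w ^ 2 := by nlinarith [sq_nonneg (w - 3 / 14)]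
      have h4 : 3 / 8 * w * (3 - 7 * w) ^ 2 ≤ 27 / 8 * w - 63 / 8 * w ^ 2 := by
        have : 0 ≤ w ^ 2 * (3 - 7 * w) := mul_nonneg (by positivity) (by linarith)
        nlinarith
      have e2 : 24 * w ^ 3 * x ^ 2 + 6 * w ^ 2 * (7 * w - 3) * x + 5 * w ^ 3 + 1
          = 24 * w * (w * x - (3 - 7 * w) / 8) ^ 2 + 5 * w ^ 3
            + (1 - 3 / 8 * w * (3 - 7 * w) ^ 2) := by ring
      rw [e2]
      have : 0 ≤ 24 * w * (w * x - (3 - 7 * w) / 8) ^ 2 + 5 * w ^ 3 := by positivity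
      linarith
  set g := 2 * F + p with hg
  have hC : (z + t * g) ^ 2 ≤ (w + t ^ 2) * (1 + p ^ 2) := by
    have h1 : w * (z + t * g) ^ 2 ≤ (w + t ^ 2) * (z ^ 2 + w * g ^ 2) := by
      have e : (w + t ^ 2) * (z ^ 2 + w * g ^ 2) - w * (z + t * g) ^ 2 = (t * z - w * g) ^ 2 := by
        ring
      nlinarith [sq_nonneg (t * z - w * g)]
    have h2 : z ^ 2 + w * g ^ 2 ≤ w * (1 + p ^ 2) := by
      rw [hg]; nlinarith
    have h3 : w * (z + t * g) ^ 2 ≤ w * ((w + t ^ 2) * (1 + p ^ 2)) := by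
      have := mul_le_mul_of_nonneg_left h2 (by positivity : 0 ≤ w + t ^ 2)
      linarith
    exact le_of_mul_le_mul_left h3 hw
  have h5 := abs_le_of_sq_le_sq (hC.trans hE) hnt
  have h6 := (abs_le.mp h5).2
  have e3 : z + (w * (2 * p) + 3 * T * (w - 1)) * F = z + t * g - t * p := by
    rw [ht, hg]; ring
  rw [e3]
  linarith

theorem seven {a q : ℝ} (ha : 0 ≤ a) (hq : 0 ≤ q) (h : a ^ 2 + q ^ 2 = 1) :
    a + 7 * (a * q) ≤ 3 + 3 * q := by
  have ha1 : a ≤ 1 := by nlinarith [sq_nonneg q]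
  have hq1 : q ≤ 1 := by nlinarith [sq_nonneg a]
  nlinarith [sq_nonneg (a - 4 / 5), sq_nonneg (q - 3 / 5), mul_nonneg ha hq,
    sq_nonneg (a - q), sq_nonneg (a + q - 7 / 5), mul_nonneg hq (sub_nonneg.mpr ha1)]

/-- `ρ` -/
noncomputable def ro (y : ℝ) : ℝ := √(1 - y ^ 2)

section

variable {k : ℝ} (hk0 : 0 < k) (hk : k ^ 2 < 1 / 2)

include hk0 hk

theorem ro_facts {y : ℝ} (hy : y ∈ Icc (-k) k) :
    1 / 2 ≤ ro y ∧ ro y ≤ 1 ∧ ro y ^ 2 = 1 - y ^ 2 ∧ 1 - 2 * k ^ 2 ≤ 1 - 2 * y ^ 2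
      ∧ y ^ 2 < 1 / 2 := by
  have h1 : y ^ 2 ≤ k ^ 2 := (mem_Icc_sq hk0).mp hy
  have h2 : 0 ≤ 1 - y ^ 2 := by linarith
  refine ⟨Real.le_sqrt_of_sq_le (by norm_num; linarith), ?_, Real.sq_sqrt h2, by linarith,
    by linarith⟩
  unfold ro
  exact Real.sqrt_le_one.mpr (by nlinarith [sq_nonneg y])

theorem hasDerivAt_ro {y : ℝ} (hy : y ∈ Icc (-k) k) : HasDerivAt ro (-y / ro y) y := by
  obtain ⟨r1, r2, r3, r4, r5⟩ := ro_facts hk0 hk hy
  have h1 : HasDerivAt (fun y : ℝ => 1 - y ^ 2) (-(2 * y)) y := by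
    have := (hasDerivAt_pow 2 y).const_sub 1
    refine this.congr_deriv ?_
    push_cast; ring
  have h2 := h1.sqrt (by linarith : (1 : ℝ) - y ^ 2 ≠ 0)
  refine h2.congr_deriv ?_
  unfold ro
  have : √(1 - y ^ 2) ≠ 0 := by
    have h3 : ro y ≠ 0 := by linarith
    exact h3
  field_simp

theorem mono2 {y H : ℝ} (hy : y ∈ Icc (-k) k) (hH : |H| ≤ 1 / 2) :
    (1 / 4 : ℝ) ≤ (1 / ((1 - 2 * y ^ 2) * ro y ^ 3)) * (4 * y * ro y / (1 - 2 * y ^ 2)
      + 3 * (y / ro y)) / ro y * (y * ro y - H)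
      + 1 / ((1 - 2 * y ^ 2) * ro y ^ 3) * ((1 - 2 * y ^ 2) / ro y) := by
  obtain ⟨r1, r2, r3, r4, r5⟩ := ro_facts hk0 hk hy
  set ρ := ro y with hρ
  have hρ0 : 0 < ρ := by linarith
  set q := 1 - 2 * y ^ 2 with hq
  have hq0 : 0 < q := by linarith
  have hy2 : y ^ 2 = 1 - ρ ^ 2 := by linarith
  have h1q : 1 + q = 2 * ρ ^ 2 := by rw [hq, hy2]; ring
  set u := 2 * y * ρ with hu
  have huq : u ^ 2 + q ^ 2 = 1 := by
    have : u ^ 2 = 4 * y ^ 2 * ρ ^ 2 := by rw [hu]; ring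
    rw [this, r3, hq]; ring
  have e : (1 / (q * ρ ^ 3)) * (4 * y * ρ / q + 3 * (y / ρ)) / ρ * (y * ρ - H)
      + 1 / (q * ρ ^ 3) * (q / ρ)
      = (q ^ 2 * (1 + q) - u * (2 + 5 * q) * (H - u / 2)) / (q ^ 2 * (1 + q) * ρ ^ 4) := by
    rw [h1q, hu]
    field_simp
    have : q = 2 * ρ ^ 2 - 1 := by linarith
    rw [this]
    ring
  rw [e, le_div_iff₀ (by positivity)]
  have hρ4 : ρ ^ 4 ≤ 1 := pow_le_one₀ hρ0.le r2
  have hbase : q ^ 2 * (1 + q) * ρ ^ 4 ≤ q ^ 2 * (1 + q) := by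
    have : 0 ≤ q ^ 2 * (1 + q) := by positivity
    nlinarith
  -- `4 u (2 + 5 q) (H - u / 2) ≤ 3 q² (1 + q)`
  have hua : |u| ^ 2 = u ^ 2 := sq_abs u
  have ha1 : |u| ≤ 1 := by
    rw [← sq_le_one_iff_abs_le_one]; nlinarith [sq_nonneg q]
  have hs := seven (abs_nonneg u) hq0.le (by rw [hua]; exact huq)
  have h2 : u * (H - u / 2) ≤ |u| / 2 * (1 - |u|) := by
    have h3 : u * H ≤ |u| * (1 / 2) := by
      calc u * H ≤ |u * H| := le_abs_self _
        _ = |u| * |H| := abs_mul _ _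
        _ ≤ _ := mul_le_mul_of_nonneg_left hH (abs_nonneg _)
    nlinarith
  have h4 : 4 * (|u| / 2 * (1 - |u|) * (2 + 5 * q)) ≤ 3 * (q ^ 2 * (1 + q)) := by
    have hq2 : q ^ 2 = (1 - |u|) * (1 + |u|) := by nlinarith
    rw [hq2]
    have h5 : 0 ≤ 1 - |u| := by linarith
    have h6 : 2 * |u| * (2 + 5 * q) ≤ 3 * (1 + |u|) * (1 + q) := by nlinarith
    have := mul_le_mul_of_nonneg_left h6 h5
    nlinarith
  have h7 : u * (2 + 5 * q) * (H - u / 2) ≤ |u| / 2 * (1 - |u|) * (2 + 5 * q) := by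
    have := mul_le_mul_of_nonneg_right h2 (by positivity : 0 ≤ 2 + 5 * q)
    linarith
  linarith

end

/-- The kernel for caps of radius less than `π / 4`. -/
noncomputable def ker2 {k : ℝ} (hk0 : 0 < k) (hk : k ^ 2 < 1 / 2) : SKer k where
  w y := 1 / ((1 - 2 * y ^ 2) * ro y ^ 3)
  Q y := y * ro y
  dw y := (1 / ((1 - 2 * y ^ 2) * ro y ^ 3)) * (4 * y * ro y / (1 - 2 * y ^ 2)
      + 3 * (y / ro y)) / ro y
  dQ y := (1 - 2 * y ^ 2) / ro y
  K := 1 / 2
  B := 200 / (1 - 2 * k ^ 2) ^ 2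
  m := 1 / 4
  k0 := hk0
  k1 := by nlinarith
  hB := by
    rw [le_div_iff₀ (by have : 0 < 1 - 2 * k ^ 2 := by linarith
                        positivity)]
    nlinarith [sq_nonneg k]
  hKB := by
    rw [le_div_iff₀ (by have : 0 < 1 - 2 * k ^ 2 := by linarith
                        positivity)]
    nlinarith [sq_nonneg k]
  hm := by norm_num
  mw := by unfold ro; fun_prop
  mQ := by unfold ro; fun_prop
  mdw := by unfold ro; fun_prop
  mdQ := by unfold ro; fun_prop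
  hw y hy := by
    obtain ⟨r1, r2, r3, r4, r5⟩ := ro_facts hk0 hk hy
    have hρ0 : 0 < ro y := by linarith
    have hq0 : 0 < 1 - 2 * y ^ 2 := by linarith
    have d1 := hasDerivAt_ro hk0 hk hy
    have d2 : HasDerivAt (fun y : ℝ => 1 - 2 * y ^ 2) (-(4 * y)) y := by
      have := ((hasDerivAt_pow 2 y).const_mul 2).const_sub 1
      refine this.congr_deriv ?_
      push_cast; ring
    have d3 := (hasDerivAt_const y (1 : ℝ)).fun_div (d2.fun_mul (d1.fun_pow 3)) (by positivity)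
    refine d3.congr_deriv ?_
    push_cast
    field_simp
    ring
  hQ y hy := by
    obtain ⟨r1, r2, r3, r4, r5⟩ := ro_facts hk0 hk hy
    have hρ0 : 0 < ro y := by linarith
    have d1 := hasDerivAt_ro hk0 hk hy
    have d2 := (hasDerivAt_id' y).fun_mul d1
    refine d2.congr_deriv ?_
    field_simp
    rw [r3]
    ring
  bw y hy := by
    obtain ⟨r1, r2, r3, r4, r5⟩ := ro_facts hk0 hk hy
    have hρ0 : 0 < ro y := by linarith
    have hK0 : 0 < 1 - 2 * k ^ 2 := by linarith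
    have hq0 : 0 < 1 - 2 * y ^ 2 := by linarith
    have h8 : (1 / 8 : ℝ) ≤ ro y ^ 3 := by
      calc (1 / 8 : ℝ) = (1 / 2) ^ 3 := by norm_num
        _ ≤ _ := pow_le_pow_left₀ (by norm_num) r1 3
    rw [abs_of_pos (by positivity), div_le_div_iff₀ (by positivity) (by positivity)]
    have : (1 - 2 * k ^ 2) * (1 / 8) ≤ (1 - 2 * y ^ 2) * ro y ^ 3 :=
      mul_le_mul r4 h8 (by norm_num) hq0.le
    nlinarith [sq_nonneg k]
  bQ y hy := by
    obtain ⟨r1, r2, r3, r4, r5⟩ := ro_facts hk0 hk hy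
    rw [abs_le]
    constructor <;> nlinarith [sq_nonneg (y - ro y), sq_nonneg (y + ro y)]
  bdw y hy := by
    obtain ⟨r1, r2, r3, r4, r5⟩ := ro_facts hk0 hk hy
    have hρ0 : 0 < ro y := by linarith
    have hK0 : 0 < 1 - 2 * k ^ 2 := by linarith
    have hK1 : 1 - 2 * k ^ 2 ≤ 1 := by nlinarith [sq_nonneg k]
    have hq0 : 0 < 1 - 2 * y ^ 2 := by linarith
    set K := 1 - 2 * k ^ 2 with hK
    have h8 : (1 / 8 : ℝ) ≤ ro y ^ 3 := by
      calc (1 / 8 : ℝ) = (1 / 2) ^ 3 := by norm_num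
        _ ≤ _ := pow_le_pow_left₀ (by norm_num) r1 3
    have hy1 : |y| ≤ 1 := by
      rw [← sq_le_one_iff_abs_le_one]; linarith
    have b1 : |1 / ((1 - 2 * y ^ 2) * ro y ^ 3)| ≤ 8 / K := by
      rw [abs_of_pos (by positivity), div_le_div_iff₀ (by positivity) (by positivity)]
      have : K * (1 / 8) ≤ (1 - 2 * y ^ 2) * ro y ^ 3 :=
        mul_le_mul r4 h8 (by norm_num) hq0.le
      linarith
    have b2 : |4 * y * ro y / (1 - 2 * y ^ 2) + 3 * (y / ro y)| ≤ 10 / K := by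
      refine (abs_add_le _ _).trans ?_
      have c1 : |4 * y * ro y / (1 - 2 * y ^ 2)| ≤ 4 / K := by
        rw [abs_div, abs_of_pos hq0, abs_mul, abs_mul, abs_of_pos hρ0]
        rw [div_le_div_iff₀ (by positivity) (by positivity)]
        have : |(4 : ℝ)| * |y| * ro y ≤ 4 := by
          rw [abs_of_pos (by norm_num : (0 : ℝ) < 4)]
          nlinarith [abs_nonneg y]
        nlinarith
      have c2 : |3 * (y / ro y)| ≤ 6 / K := by
        rw [abs_mul, abs_div, abs_of_pos hρ0, abs_of_pos (by norm_num : (0 : ℝ) < 3)]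
        have : |y| / ro y ≤ 2 := by
          rw [div_le_iff₀ hρ0]; linarith
        have h6 : 6 ≤ 6 / K := by
          rw [le_div_iff₀ hK0]; linarith
        linarith
      have : (10 : ℝ) / K = 4 / K + 6 / K := by ring
      linarith
    rw [abs_div, abs_mul, abs_of_pos hρ0, div_le_iff₀ hρ0]
    have b3 := mul_le_mul b1 b2 (abs_nonneg _) (by positivity)
    have b4 : 8 / K * (10 / K) = 80 / K ^ 2 := by field_simp; norm_num
    have b5 : 80 / K ^ 2 ≤ 200 / K ^ 2 * ro y := by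
      have : 200 / K ^ 2 * ro y = (200 * ro y) / K ^ 2 := by ring
      rw [this]
      apply div_le_div_of_nonneg_right _ (by positivity)
      linarith
    linarith
  bdQ y hy := by
    obtain ⟨r1, r2, r3, r4, r5⟩ := ro_facts hk0 hk hy
    have hρ0 : 0 < ro y := by linarith
    have hK0 : 0 < 1 - 2 * k ^ 2 := by linarith
    have hK1 : 1 - 2 * k ^ 2 ≤ 1 := by nlinarith [sq_nonneg k]
    have hq0 : 0 < 1 - 2 * y ^ 2 := by linarith
    rw [abs_of_pos (by positivity), div_le_div_iff₀ (by positivity) (by positivity)]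
    have : (1 - 2 * k ^ 2) ^ 2 ≤ 1 := pow_le_one₀ hK0.le hK1
    have : 1 - 2 * y ^ 2 ≤ 1 := by nlinarith [sq_nonneg y]
    nlinarith
  mono y hy H hH := mono2 hk0 hk hy hH
  q y := 1 - 2 * y ^ 2
  Θ y := 4 * y * ro y / (1 - 2 * y ^ 2)
  mq := by fun_prop
  mΘ := by unfold ro; fun_prop
  B' := 4 / (1 - 2 * k ^ 2)
  q0 := 1 - 2 * k ^ 2
  hq0 := by linarith
  hq y hy := (ro_facts hk0 hk hy).2.2.2.1
  bΘ y hy := by
    obtain ⟨r1, r2, r3, r4, r5⟩ := ro_facts hk0 hk hy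
    have hρ0 : 0 < ro y := by linarith
    have hK0 : 0 < 1 - 2 * k ^ 2 := by linarith
    have hq0 : 0 < 1 - 2 * y ^ 2 := by linarith
    have hy1 : |y| ≤ 1 := by
      rw [← sq_le_one_iff_abs_le_one]; linarith
    rw [abs_div, abs_of_pos hq0, abs_mul, abs_mul, abs_of_pos hρ0]
    rw [div_le_div_iff₀ (by positivity) (by positivity)]
    have : |(4 : ℝ)| * |y| * ro y ≤ 4 := by
      rw [abs_of_pos (by norm_num : (0 : ℝ) < 4)]
      nlinarith [abs_nonneg y]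
    nlinarith
  w_eq y _ := rfl
  dQ_eq y _ := rfl
  dw_eq y _ := rfl
  QA s := sin s * cos s
  qA s := 1 - 2 * sin s ^ 2
  hQA s := by
    have := (hasDerivAt_sin s).fun_mul (hasDerivAt_cos s)
    refine this.congr_deriv ?_
    have := sin_sq_add_cos_sq s
    linear_combination this
  cqA := by fun_prop
  bqA s := by
    have := sin_sq_add_cos_sq s
    rw [abs_le]
    constructor <;> nlinarith [sq_nonneg (sin s), sq_nonneg (cos s)]
  QA_le s _ := by
    have := sin_sq_add_cos_sq s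
    rw [abs_le]
    constructor <;> nlinarith [sq_nonneg (sin s - cos s), sq_nonneg (sin s + cos s)]
  QA_eq y hy := by
    obtain ⟨r1, r2, r3, r4, r5⟩ := ro_facts hk0 hk hy
    rw [sin_arcsin (by nlinarith) (by nlinarith), cos_arcsin]
    rfl
  c1 := 5 / 6
  c3 := 0
  scalar y hy s _ w z hw hz := by
    obtain ⟨r1, r2, r3, r4, r5⟩ := ro_facts hk0 hk hy
    have hρ0 : 0 < ro y := by linarith
    have hq0 : 0 < 1 - 2 * y ^ 2 := by linarith
    have hT : (y / ro y) ^ 2 < 1 := by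
      rw [div_pow, r3, div_lt_one (by linarith)]; linarith
    have hy2 : y ^ 2 = 1 - ro y ^ 2 := by linarith
    have hp : (2 * y * ro y / (1 - 2 * y ^ 2)) * (1 - (y / ro y) ^ 2) = 2 * (y / ro y) := by
      have e1 : 1 - (y / ro y) ^ 2 = (1 - 2 * y ^ 2) / ro y ^ 2 := by
        field_simp
        linarith
      rw [e1]
      field_simp
    have key := scalar_ineq (T := y / ro y) (p := 2 * y * ro y / (1 - 2 * y ^ 2)) (w := w)
      (z := z) (F := (sin s * cos s - y * ro y) / (1 - 2 * y ^ 2)) hT hp hw (by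
        refine hz.trans (le_of_eq ?_)
        have hsc := sin_sq_add_cos_sq s
        congr 1
        have e2 : (1 - 2 * sin s ^ 2) ^ 2 = 1 - 4 * (sin s * cos s) ^ 2 := by
          have : cos s ^ 2 = 1 - sin s ^ 2 := by linarith
          rw [mul_pow, this]; ring
        have e3 : (1 - 2 * y ^ 2) ^ 2 = 1 - 4 * (y * ro y) ^ 2 := by
          rw [mul_pow, r3]; ring
        rw [div_pow, e2]
        have e4 : (1 - 2 * y ^ 2) ≠ 0 := hq0.ne'
        have e5 : (1 - 4 * (2 * y * ro y / (1 - 2 * y ^ 2)) * ((sin s * cos s - y * ro y)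
            / (1 - 2 * y ^ 2)) - 4 * ((sin s * cos s - y * ro y) / (1 - 2 * y ^ 2)) ^ 2)
            = ((1 - 2 * y ^ 2) ^ 2 - 8 * y * ro y * (sin s * cos s - y * ro y)
              - 4 * (sin s * cos s - y * ro y) ^ 2) / (1 - 2 * y ^ 2) ^ 2 := by
          field_simp
          ring
        rw [e5]
        congr 1
        rw [e3]
        ring)
    refine le_trans (le_of_eq ?_) key
    show z + (w * (4 * y * ro y / (1 - 2 * y ^ 2)) + 3 * (y / ro y) * (w - 1))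
      * ((sin s * cos s - y * ro y) / (1 - 2 * y ^ 2)) = _
    ring

end Pool.Agent.Helper83K9.Cap2
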