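import Mathlib
import Pool.Agent.Helper83K9.Cap.Final
import Pool.Agent.Helper83K9.Cap2.Chart
import Pool.Agent.Helper83K9.Cap2.Nu2

/-! # The area of surfaces bounded by the circle of a spherical cap of radius less than `π / 4` -/

set_option autoImplicit false

open Real MeasureTheory Set Filter Topology

namespace Pool.Agent.Helper83K9.Cap2

open Pool.Agent.Helper83K9.Cap
open Pool.Agent.H115R3.Filling Pool.Agent.W664.Fill

theorem PP_lip' {c0 a b a' b' : ℝ} (hc0 : 0 < c0) (hc1 : c0 ≤ 1)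
    (h : a ^ 2 + b ^ 2 ≤ 1 - c0 ^ 2) (h' : a' ^ 2 + b' ^ 2 ≤ 1 - c0 ^ 2) :
    |PP a b - PP a' b'| ≤ 2 / c0 ^ 3 * (|a - a'| + |b - b'|) := by
  have hb : ∀ {x y : ℝ}, x ^ 2 + y ^ 2 ≤ 1 - c0 ^ 2 → |x| ≤ 1 ∧ |y| ≤ 1 := by
    intro x y hxy
    constructor
    · rw [← sq_le_one_iff_abs_le_one]; nlinarith [sq_nonneg y, sq_nonneg c0]
    · rw [← sq_le_one_iff_abs_le_one]; nlinarith [sq_nonneg x, sq_nonneg c0]
  obtain ⟨ha, hb1⟩ := hb h
  obtain ⟨ha', hb'⟩ := hb h'
  unfold PP
  refine (arctan_lip _ _).trans ?_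
  have hc2 : √(1 - (a ^ 2 + b ^ 2)) ^ 2 = 1 - (a ^ 2 + b ^ 2) :=
    Real.sq_sqrt (by nlinarith [sq_nonneg c0])
  have hd2 : √(1 - (a' ^ 2 + b' ^ 2)) ^ 2 = 1 - (a' ^ 2 + b' ^ 2) :=
    Real.sq_sqrt (by nlinarith [sq_nonneg c0])
  have hc4 : c0 ≤ √(1 - (a ^ 2 + b ^ 2)) := Real.le_sqrt_of_sq_le (by linarith)
  have hd4 : c0 ≤ √(1 - (a' ^ 2 + b' ^ 2)) := Real.le_sqrt_of_sq_le (by linarith)
  generalize √(1 - (a ^ 2 + b ^ 2)) = c at *
  generalize √(1 - (a' ^ 2 + b' ^ 2)) = d at *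
  have hcpos : 0 < c := by linarith
  have hdpos : 0 < d := by linarith
  have e : a / c - a' / d = (a - a') / c
      + a' * ((a' - a) * (a + a') + (b' - b) * (b + b')) / (c * d * (c + d)) * (-1) := by
    have e1 : (a' - a) * (a + a') + (b' - b) * (b + b') = c ^ 2 - d ^ 2 := by
      rw [hc2, hd2]; ring
    rw [e1]
    field_simp
    ring
  rw [e]
  refine (abs_add_le _ _).trans ?_
  have A1 := abs_nonneg (a - a')
  have A2 := abs_nonneg (b - b')
  have hc3 : c0 ^ 3 ≤ c0 := by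
    have : c0 ^ 2 ≤ 1 := pow_le_one₀ hc0.le hc1
    nlinarith
  have t1 : |(a - a') / c| ≤ 1 / c0 ^ 3 * |a - a'| := by
    rw [abs_div, abs_of_pos hcpos, one_div, inv_mul_eq_div]
    exact div_le_div_of_nonneg_left A1 (by positivity) (hc3.trans hc4)
  have hden : 2 * c0 ^ 3 ≤ c * d * (c + d) := by
    have h1 : c0 * c0 ≤ c * d := mul_le_mul hc4 hd4 hc0.le hcpos.le
    have h2 : 2 * c0 ≤ c + d := by linarith
    have h3 := mul_le_mul h1 h2 (by positivity) (by positivity)
    linarith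
  have h1 : |(a' - a) * (a + a') + (b' - b) * (b + b')| ≤ 2 * (|a - a'| + |b - b'|) := by
    refine (abs_add_le _ _).trans ?_
    rw [abs_mul, abs_mul, abs_sub_comm a' a, abs_sub_comm b' b]
    have s1 : |a + a'| ≤ 2 := (abs_add_le _ _).trans (by linarith)
    have s2 : |b + b'| ≤ 2 := (abs_add_le _ _).trans (by linarith)
    have h2 := mul_le_mul_of_nonneg_left s1 A1
    have h3 := mul_le_mul_of_nonneg_left s2 A2
    linarith
  have hn : |a' * ((a' - a) * (a + a') + (b' - b) * (b + b'))|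
      ≤ 2 * (|a - a'| + |b - b'|) := by
    rw [abs_mul]
    calc |a'| * |(a' - a) * (a + a') + (b' - b) * (b + b')|
        ≤ 1 * (2 * (|a - a'| + |b - b'|)) :=
          mul_le_mul ha' h1 (abs_nonneg _) (by norm_num)
      _ = _ := by ring
  have t2 : |a' * ((a' - a) * (a + a') + (b' - b) * (b + b')) / (c * d * (c + d)) * (-1)|
      ≤ 1 / c0 ^ 3 * (|a - a'| + |b - b'|) := by
    have hpos : 0 < c * d * (c + d) := by positivity
    rw [mul_neg_one, abs_neg, abs_div, abs_of_pos hpos, one_div, inv_mul_eq_div,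
      div_le_div_iff₀ hpos (by positivity)]
    have hA : 0 ≤ |a - a'| + |b - b'| := by positivity
    have h5 := mul_le_mul_of_nonneg_right hn (by positivity : 0 ≤ c0 ^ 3)
    have h6 := mul_le_mul_of_nonneg_left hden hA
    linarith
  have e3 : 2 / c0 ^ 3 * (|a - a'| + |b - b'|) = 1 / c0 ^ 3 * |a - a'| + 1 / c0 ^ 3 * |b - b'|
      + 1 / c0 ^ 3 * (|a - a'| + |b - b'|) := by ring
  rw [e3]
  have h7 : 0 ≤ 1 / c0 ^ 3 * |b - b'| := by positivity
  linarith

theorem PP_diff' {f g : ℝ × ℝ → ℝ} {x : ℝ × ℝ} (df : DifferentiableAt ℝ f x)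
    (dg : DifferentiableAt ℝ g x) (h : f x ^ 2 + g x ^ 2 < 1) :
    DifferentiableAt ℝ (fun y => PP (f y) (g y)) x := by
  have hpos : 0 < 1 - (f x ^ 2 + g x ^ 2) := by linarith
  have h1 : DifferentiableAt ℝ (fun y => 1 - (f y ^ 2 + g y ^ 2)) x :=
    (DifferentiableAt.fun_add (df.fun_pow 2) (dg.fun_pow 2)).const_sub 1
  have h2 := h1.sqrt hpos.ne'
  have h3 := h2.fun_inv (Real.sqrt_pos.mpr hpos).ne'
  have h4 := (df.fun_mul h3).arctan
  unfold PP
  simp only [div_eq_mul_inv]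
  exact h4

/-- `dP ∧ dX₂ = dX₁ ∧ dX₂ / √(1 - |X|²)` -/
theorem jac_PP' {f g : ℝ × ℝ → ℝ} {x : ℝ × ℝ} (df : DifferentiableAt ℝ f x)
    (dg : DifferentiableAt ℝ g x) (h : f x ^ 2 + g x ^ 2 < 1) :
    jac (fun y => PP (f y) (g y)) g x = jac f g x / √(1 - (f x ^ 2 + g x ^ 2)) := by
  set c := √(1 - (f x ^ 2 + g x ^ 2)) with hc
  have hpos : 0 < 1 - (f x ^ 2 + g x ^ 2) := by linarith
  have hcpos : 0 < c := Real.sqrt_pos.mpr hpos
  have hc2 : c ^ 2 = 1 - (f x ^ 2 + g x ^ 2) := Real.sq_sqrt hpos.le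
  set u := f x with hu
  set v := g x with hv
  have h4 : 0 < c ^ 2 + u ^ 2 := by positivity
  have key : ∀ e, fderiv ℝ (fun y => PP (f y) (g y)) x e
      = ((c ^ 2 + u ^ 2) * fderiv ℝ f x e + u * v * fderiv ℝ g x e) / (c * (c ^ 2 + u ^ 2)) := by
    intro e
    have d0 := lineDeriv_of (PP_diff' df dg h) e
    have d1 := lineDeriv_of df e
    have d2 := lineDeriv_of dg e
    have hx0 : x + (0 : ℝ) • e = x := by simp
    have d3 := ((d1.fun_pow 2).fun_add (d2.fun_pow 2)).const_sub 1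
    have d4 := d3.sqrt (by rw [hx0]; exact hpos.ne')
    have d5 := (d1.fun_div d4 (by rw [hx0]; exact hcpos.ne')).arctan
    have d6 := d0.unique d5
    rw [d6]
    rw [hx0, ← hu, ← hv, ← hc]
    have h5 : 1 + (u / c) ^ 2 = (c ^ 2 + u ^ 2) / c ^ 2 := by field_simp
    rw [h5]
    push_cast
    field_simp
    ring
  unfold jac
  rw [key, key]
  have h6 : v ^ 2 = 1 - c ^ 2 - u ^ 2 := by linarith
  field_simp
  ring

section

variable {M : Type} [MetricSpace M] (S : OrientedSurface M)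

/-- **Main theorem**, for a kernel. -/
theorem SKer.cap_area {k : ℝ} (κ : SKer k) (hS : CapNoShortcut S k) :
    2 * π * (1 - √(1 - k ^ 2)) ≤ S.area := by
  have hk0 := κ.k0
  have hk1 := κ.k1
  obtain ⟨X, hX⟩ := κ.exists_est S
  set c := √(1 - k ^ 2) with hc
  have hk2 : k ^ 2 < 1 := by nlinarith
  have hpos : 0 < 1 - k ^ 2 := by linarith
  have hcpos : 0 < c := Real.sqrt_pos.mpr hpos
  have hc1 : c ≤ 1 := Real.sqrt_le_one.mpr (by nlinarith [sq_nonneg k])
  have hc2 : c ^ 2 = 1 - k ^ 2 := Real.sq_sqrt hpos.le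
  have hXk : ∀ z, (X z).1 ^ 2 + (X z).2 ^ 2 ≤ 1 - c ^ 2 := fun z => by
    rw [hc2]; have := (hX.vi z).1; linarith
  have hX1 : ∀ z, (X z).1 ^ 2 + (X z).2 ^ 2 < 1 := fun z => (hX.vi z).1.trans_lt hk2
  set Λ := κ.Λ' with hΛ
  have hΛ0 : 0 < Λ := κ.Λ'_pos
  set A := 4 * Λ / c ^ 3 with hA
  have hA0 : 0 < A := by positivity
  -- boundary values
  have hbd : ∀ t : ℝ, X (S.boundary (t : AddCircle (2 * π))) = (k * cos t, k * sin t) := by
    intro t
    have hsq : (k * cos t) ^ 2 + (k * sin t) ^ 2 ≤ k ^ 2 := by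
      have := sin_sq_add_cos_sq t
      apply le_of_eq
      linear_combination k ^ 2 * this
    have hpen : κ.H S (S.boundary (t : AddCircle (2 * π)))
        = fun φ => κ.Q (lin (k * cos t) (k * sin t) φ) := by
      funext φ
      unfold SKer.H
      rw [sfun_boundary S hk0.le hk1.le hS]
      have e : k * cos (t - φ) = lin (k * cos t) (k * sin t) φ := by
        rw [cos_sub]; unfold lin; ring
      rw [e]
      exact κ.QA_eq _ (lin_mem hk0 hsq φ)
    have v1 := hX.vi (S.boundary (t : AddCircle (2 * π)))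
    have v2 := κ.VI_pencil (x1 := k * cos t) (x2 := k * sin t) hsq
    rw [hpen] at v1
    have n1 := κ.nice_Q hsq
    have h1 := κ.VI_lip n1 n1 (fun φ => κ.bQ _ (lin_mem hk0 hsq φ)) (δ := 0)
      (fun φ => by simp) v1 v2
    rw [mul_zero] at h1
    have h2 := Real.sqrt_eq_zero'.mp (le_antisymm h1 (Real.sqrt_nonneg _))
    simp only at h2
    have h3 : (k * cos t - (X (S.boundary (t : AddCircle (2 * π)))).1) ^ 2 = 0 := by
      apply le_antisymm _ (sq_nonneg _)
      nlinarith [sq_nonneg (k * sin t - (X (S.boundary (t : AddCircle (2 * π)))).2)]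
    have h4 : (k * sin t - (X (S.boundary (t : AddCircle (2 * π)))).2) ^ 2 = 0 := by
      apply le_antisymm _ (sq_nonneg _)
      nlinarith [sq_nonneg (k * cos t - (X (S.boundary (t : AddCircle (2 * π)))).1)]
    have h5 := pow_eq_zero_iff (two_ne_zero) |>.mp h3
    have h6 := pow_eq_zero_iff (two_ne_zero) |>.mp h4
    apply Prod.ext
    · simp only; linarith
    · simp only; linarith
  have key := area_ge_of_cal S (ι := Unit) {()} (fun _ => A * Λ)
    (fun _ z => PP (X z).1 (X z).2 * (1 / A)) (fun _ z => (X z).2 * (1 / Λ))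
    (fun _ x y => by
      rw [← sub_mul, abs_mul, abs_of_pos (by positivity : (0 : ℝ) < 1 / A), mul_one_div,
        div_le_iff₀ hA0]
      have h1 := PP_lip' hcpos hc1 (hXk x) (hXk y)
      have h2 := hX.lip1 x y
      have h3 := hX.lip2 x y
      rw [← hΛ] at h2 h3
      have h4 : 2 / c ^ 3 * (|(X x).1 - (X y).1| + |(X x).2 - (X y).2|)
          ≤ 2 / c ^ 3 * (2 * (Λ * dist x y)) :=
        mul_le_mul_of_nonneg_left (by linarith) (by positivity)
      refine (h1.trans h4).trans (le_of_eq ?_)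
      rw [hA]; ring)
    (fun _ x y => by
      rw [← sub_mul, abs_mul, abs_of_pos (by positivity : (0 : ℝ) < 1 / Λ), mul_one_div,
        div_le_iff₀ hΛ0]
      have h3 := hX.lip2 x y
      rw [← hΛ] at h3
      linarith)
    (fun i => by
      filter_upwards [SKer.chart_jac hX i] with x hx
      obtain ⟨d1, d2, hj⟩ := hx
      rw [Finset.sum_singleton]
      have hPd : DifferentiableAt ℝ
          (fun p => PP (X (S.chart i p)).1 (X (S.chart i p)).2) x := PP_diff' d1 d2 (hX1 _)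
      have e1 : A * Λ * jac (fun p => PP (X (S.chart i p)).1 (X (S.chart i p)).2 * (1 / A))
          (fun p => (X (S.chart i p)).2 * (1 / Λ)) x
          = jac (fun p => PP (X (S.chart i p)).1 (X (S.chart i p)).2)
            (fun p => (X (S.chart i p)).2) x := by
        have g1 := (hPd.hasFDerivAt.mul_const (1 / A : ℝ)).fderiv
        have g2 := (d2.hasFDerivAt.mul_const (1 / Λ : ℝ)).fderiv
        unfold jac
        rw [g1, g2]
        simp only [_root_.smul_apply, smul_eq_mul]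
        field_simp
      rw [e1, jac_PP' d1 d2 (hX1 _)]
      have hcz : 0 < √(1 - ((X (S.chart i x)).1 ^ 2 + (X (S.chart i x)).2 ^ 2)) :=
        Real.sqrt_pos.mpr (by have := hX1 (S.chart i x); linarith)
      rw [div_le_iff₀ hcz]
      rw [mul_comm]
      exact hj)
    (2 * π * (1 - c))
    (by
      simp only [Finset.sum_singleton]
      have h1 := cap_loop S.brk S.brk_strictMono S.brk_zero S.brk_last (k := k) hcpos
        (by rw [hc2]; ring)
      have h2 := h1.div_const 2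
      have e2 : 4 * π * (1 - c) / 2 = 2 * π * (1 - c) := by ring
      rw [e2] at h2
      refine h2.congr ?_
      intro n
      have e3 : ∀ t : ℝ, PP (k * cos t) (k * sin t) = arctan (k * cos t / c) := by
        intro t
        unfold PP
        rw [hc]
        congr 3
        have := sin_sq_add_cos_sq t
        linear_combination (-(k ^ 2)) * this
      simp only [hbd, e3]
      unfold loopSum edge
      rw [← mul_div_assoc, Finset.mul_sum]
      congr 1
      apply Finset.sum_congr rfl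
      intro j _
      rw [Finset.mul_sum]
      apply Finset.sum_congr rfl
      intro l _
      field_simp)
  exact key

/-- **Main theorem.** -/
theorem cap_area2 {k : ℝ} (hk0 : 0 < k) (hk : k ^ 2 < 1 / 2) (hS : CapNoShortcut S k) :
    2 * π * (1 - √(1 - k ^ 2)) ≤ S.area :=
  SKer.cap_area S (ker2 hk0 hk) hS

end

end Pool.Agent.Helper83K9.Cap2
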