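import Mathlib
import Pool.Agent.Helper83K9.Cap2.Defs
import Pool.Agent.Helper83K9.Cap2.Final

/-! # Surfaces replacing a disc of the round hemisphere -/

set_option autoImplicit false

open Real Set

namespace Pool.Agent.Helper83K9.Cap2

open Pool.Agent.Helper83K9.Cap
open Pool.Agent.H115R3.Filling

/-- The great circle through two points of the upper hemisphere meets the equator. -/
theorem exists_equator {r c x y δ : ℝ} (hr0 : 0 ≤ r) (hc : 0 ≤ c) (hcr : c + r ≤ π / 2)
    (hδ0 : 0 < δ) (hδπ : δ < π)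
    (hdot : cos δ = cos r ^ 2 + sin r ^ 2 * cos (x - y)) :
    ∃ σ ν : ℝ, 0 ≤ ν ∧ ν + δ ≤ π ∧ eqDot r c σ x = cos ν ∧ eqDot r c σ y = cos (ν + δ) ∧
      sin c * cos σ ≤ cos r * eqDot r c σ x ∧
      sin c * cos (σ + π) ≤ cos r * eqDot r c (σ + π) y := by
  have hsinδ : 0 < sin δ := sin_pos_of_pos_of_lt_pi hδ0 hδπ
  have hpi := Real.pi_pos
  have hcosr : 0 ≤ cos r := cos_nonneg_of_neg_pi_div_two_le_of_le (by linarith) (by linarith)
  have hsinr : 0 ≤ sin r := sin_nonneg_of_nonneg_of_le_pi hr0 (by linarith)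
  have hsinc : 0 ≤ sin c := sin_nonneg_of_nonneg_of_le_pi hc (by linarith)
  have hcr' : 0 ≤ cos (c + r) :=
    cos_nonneg_of_neg_pi_div_two_le_of_le (by linarith) (by linarith)
  -- third coordinates
  have h3 : ∀ t : ℝ, 0 ≤ cos r * cos c - sin r * sin c * cos t := by
    intro t
    rw [cos_add] at hcr'
    have := cos_le_one t
    have h4 : 0 ≤ sin r * sin c := mul_nonneg hsinr hsinc
    nlinarith
  set a3 := cos r * cos c - sin r * sin c * cos x with ha3
  set b3 := cos r * cos c - sin r * sin c * cos y with hb3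
  have ha3' : 0 ≤ a3 := h3 x
  have hb3' : 0 ≤ b3 := h3 y
  obtain ⟨ν, ⟨hν0, hν1⟩, hν⟩ : ∃ ν ∈ Icc (0 : ℝ) (π - δ), sin ν * b3 - a3 * sin (ν + δ) = 0 := by
    have hcont : ContinuousOn (fun ν => sin ν * b3 - a3 * sin (ν + δ)) (Icc (0 : ℝ) (π - δ)) := by
      fun_prop
    have h0 : (fun ν => sin ν * b3 - a3 * sin (ν + δ)) 0 ≤ 0 := by
      simp only [sin_zero, zero_mul, zero_add, zero_sub]
      have := mul_nonneg ha3' hsinδ.le
      linarith
    have h1 : 0 ≤ (fun ν => sin ν * b3 - a3 * sin (ν + δ)) (π - δ) := by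
      simp only [sub_add_cancel, sin_pi, mul_zero, sub_zero, sin_pi_sub]
      positivity
    have := intermediate_value_Icc (by linarith : (0 : ℝ) ≤ π - δ) hcont ⟨h0, h1⟩
    obtain ⟨ν, hν, e⟩ := this
    exact ⟨ν, hν, e⟩
  have hsν : 0 ≤ sin ν := sin_nonneg_of_nonneg_of_le_pi hν0 (by linarith)
  have hsνδ : 0 ≤ sin (ν + δ) := sin_nonneg_of_nonneg_of_le_pi (by linarith) (by linarith)
  -- the point of the equator
  set A1 := (sin (ν + δ) * (cos r * sin c + sin r * cos c * cos x)
    - sin ν * (cos r * sin c + sin r * cos c * cos y)) / sin δ with hA1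
  set A2 := (sin (ν + δ) * (sin r * sin x) - sin ν * (sin r * sin y)) / sin δ with hA2
  have tr := sin_sq_add_cos_sq r
  have tc := sin_sq_add_cos_sq c
  have tx := sin_sq_add_cos_sq x
  have ty := sin_sq_add_cos_sq y
  have tδ := sin_sq_add_cos_sq δ
  have tν := sin_sq_add_cos_sq ν
  have hs1 : sin (ν + δ) = sin ν * cos δ + cos ν * sin δ := sin_add _ _
  have hc1 : cos (ν + δ) = cos ν * cos δ - sin ν * sin δ := cos_add _ _
  rw [cos_sub] at hdot
  -- unit vectors
  have naa : (cos r * sin c + sin r * cos c * cos x) ^ 2 + (sin r * sin x) ^ 2 + a3 ^ 2 = 1 := by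
    rw [ha3]
    linear_combination tr + (cos r ^ 2 + sin r ^ 2 * cos x ^ 2) * tc + (sin r ^ 2) * tx
  have nbb : (cos r * sin c + sin r * cos c * cos y) ^ 2 + (sin r * sin y) ^ 2 + b3 ^ 2 = 1 := by
    rw [hb3]
    linear_combination tr + (cos r ^ 2 + sin r ^ 2 * cos y ^ 2) * tc + (sin r ^ 2) * ty
  have nab : (cos r * sin c + sin r * cos c * cos x) * (cos r * sin c + sin r * cos c * cos y)
      + (sin r * sin x) * (sin r * sin y) + a3 * b3 = cos δ := by
    rw [ha3, hb3, hdot]
    linear_combination (cos r ^ 2 + sin r ^ 2 * cos x * cos y) * tc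
  have hA3 : sin (ν + δ) * a3 - sin ν * b3 = 0 := by linarith
  set a1 := cos r * sin c + sin r * cos c * cos x with ha1
  set b1 := cos r * sin c + sin r * cos c * cos y with hb1
  set a2 := sin r * sin x with ha2
  set b2 := sin r * sin y with hb2
  have hAa : A1 * a1 + A2 * a2 = cos ν := by
    have e : sin δ * (A1 * a1 + A2 * a2) = sin δ * cos ν := by
      have e1 : sin δ * (A1 * a1 + A2 * a2) = (sin (ν + δ) * a1 - sin ν * b1) * a1
          + (sin (ν + δ) * a2 - sin ν * b2) * a2 := by
        rw [hA1, hA2]; field_simp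
      rw [e1]
      linear_combination sin (ν + δ) * naa - sin ν * nab - a3 * hA3 + hs1
    exact mul_left_cancel₀ hsinδ.ne' e
  have hAb : A1 * b1 + A2 * b2 = cos (ν + δ) := by
    have e : sin δ * (A1 * b1 + A2 * b2) = sin δ * cos (ν + δ) := by
      have e1 : sin δ * (A1 * b1 + A2 * b2) = (sin (ν + δ) * a1 - sin ν * b1) * b1
          + (sin (ν + δ) * a2 - sin ν * b2) * b2 := by
        rw [hA1, hA2]; field_simp
      rw [e1]
      have e2 : sin (ν + δ) * cos δ - sin ν = sin δ * cos (ν + δ) := by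
        rw [hs1, hc1]
        linear_combination (sin ν) * tδ
      linear_combination sin (ν + δ) * nab - sin ν * nbb - b3 * hA3 + e2
    exact mul_left_cancel₀ hsinδ.ne' e
  have hAA : A1 ^ 2 + A2 ^ 2 = 1 := by
    have e : sin δ * (A1 ^ 2 + A2 ^ 2) = sin δ * 1 := by
      have e1 : sin δ * (A1 ^ 2 + A2 ^ 2) = sin (ν + δ) * (A1 * a1 + A2 * a2)
          - sin ν * (A1 * b1 + A2 * b2) := by
        rw [hA1, hA2]; field_simp; ring
      rw [e1, hAa, hAb, hs1, hc1]
      linear_combination sin δ * tν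
    exact mul_left_cancel₀ hsinδ.ne' e
  obtain ⟨R, σ, hR0, e1, e2⟩ := exists_polar A1 A2
  have hR : R = 1 := by
    have : R ^ 2 = 1 := by
      rw [← hAA, e1, e2]
      have := sin_sq_add_cos_sq σ
      linear_combination (-R ^ 2) * this
    nlinarith
  rw [hR, one_mul] at e1 e2
  have d1 : eqDot r c σ x = cos ν := by
    unfold eqDot
    rw [← e1, ← e2, ← ha1, ← ha2]
    exact hAa
  have d2 : eqDot r c σ y = cos (ν + δ) := by
    unfold eqDot
    rw [← e1, ← e2, ← hb1, ← hb2]
    exact hAb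
  have d2' : eqDot r c (σ + π) y = -cos (ν + δ) := by
    rw [← d2]
    unfold eqDot
    rw [cos_add_pi, sin_add_pi]; ring
  -- `A · C`
  have hAC : sin c * cos σ = cos r * (sin (ν + δ) - sin ν) / sin δ := by
    have hAC' : A1 * sin c + 0 = cos r * (sin (ν + δ) - sin ν) / sin δ := by
      have e3 : a1 * sin c + a3 * cos c = cos r := by
        rw [ha1, ha3]; linear_combination cos r * tc
      have e4 : b1 * sin c + b3 * cos c = cos r := by
        rw [hb1, hb3]; linear_combination cos r * tc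
      rw [hA1]
      field_simp
      linear_combination sin (ν + δ) * e3 - sin ν * e4 - cos c * hA3
    rw [← hAC', e1]; ring
  have hcosδ : cos δ ≤ 1 := cos_le_one δ
  refine ⟨σ, ν, hν0, by linarith, d1, d2, ?_, ?_⟩
  · rw [hAC, d1, div_le_iff₀ hsinδ]
    have : sin (ν + δ) - sin ν ≤ cos ν * sin δ := by
      rw [hs1]; nlinarith
    calc cos r * (sin (ν + δ) - sin ν) ≤ cos r * (cos ν * sin δ) :=
          mul_le_mul_of_nonneg_left this hcosr
      _ = _ := by ring
  · rw [cos_add_pi, d2']
    have e5 : sin c * -cos σ = cos r * (sin ν - sin (ν + δ)) / sin δ := by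
      have : sin c * -cos σ = -(sin c * cos σ) := by ring
      rw [this, hAC]; ring
    rw [e5, div_le_iff₀ hsinδ]
    have : sin ν - sin (ν + δ) ≤ -cos (ν + δ) * sin δ := by
      have e6 : sin ν = sin (ν + δ) * cos δ - cos (ν + δ) * sin δ := by
        rw [hs1, hc1]
        linear_combination (-sin ν) * tδ
      nlinarith
    calc cos r * (sin ν - sin (ν + δ)) ≤ cos r * (-cos (ν + δ) * sin δ) :=
          mul_le_mul_of_nonneg_left this hcosr
      _ = _ := by ring

theorem capNoShortcut_of_replaced {N M : Type} [MetricSpace N] [MetricSpace M]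
    (T : OrientedSurface N) (S : OrientedSurface M) {r : ℝ} (hr0 : 0 ≤ r) (hr : r < π / 2)
    (hT : T.NoShortcut) (h : DiscReplaced T S r) : CapNoShortcut S (sin r) := by
  have hpi := Real.pi_pos
  have hk0 : 0 ≤ sin r := sin_nonneg_of_nonneg_of_le_pi hr0 (by linarith)
  have hk1 : sin r ≤ 1 := sin_le_one r
  have hanti : ∀ s : ℝ, π ≤ dist (T.boundary (s : AddCircle (2 * π)))
      (T.boundary ((s + π : ℝ) : AddCircle (2 * π))) := by
    intro s
    have h1 := hT (s : AddCircle (2 * π)) ((s + π : ℝ) : AddCircle (2 * π))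
    refine le_trans ?_ h1
    rw [dist_comm, dist_eq_norm, ← AddCircle.coe_sub, add_sub_cancel_left]
    have e : ((π : ℝ) : AddCircle (2 * π)) = ((2 * π / 2 : ℝ) : AddCircle (2 * π)) := by
      congr 1; ring
    rw [e, AddCircle.norm_half_period_eq, abs_of_pos (by positivity)]
    linarith
  intro x y
  set δ := chord (sin r) (x - y) with hδ
  rcases (chord_nonneg hk0 (x - y)).eq_or_lt with h0 | h0
  · rw [hδ, ← h0]; exact dist_nonneg
  · have hδπ : δ < π := by
      rcases (chord_le_pi (sin r) (x - y)).lt_or_eq with h1 | h1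
      · exact h1
      · exfalso
        have h2 := cos_chord hk0 hk1 (x - y)
        rw [h1, cos_pi] at h2
        have h3 : sin r < 1 := by
          have := sin_lt_sin_of_lt_of_le_pi_div_two (by linarith : -(π / 2) ≤ r) le_rfl hr
          rwa [sin_pi_div_two] at this
        have := cos_chord hk0 hk1 (x - y)
        nlinarith [sin_sq_add_cos_sq r, neg_one_le_cos (x - y), sin_sq_le_one ((x - y) / 2),
          cos_le_one (x - y), sq_nonneg (sin r), sq_nonneg (cos r)]
    have hcos : cos δ = cos r ^ 2 + sin r ^ 2 * cos (x - y) := by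
      have h2 := cos_chord hk0 hk1 (x - y)
      rw [hδ, h2]
      have := sin_sq_add_cos_sq r
      linear_combination (-1 : ℝ) * this
    obtain ⟨σ, ν, hν0, hν1, d1, d2, g1, g2⟩ :=
      exists_equator hr0 h.c_nonneg h.c_le h0 hδπ hcos
    have e1 : σ + h.ω - h.ω = σ := by ring
    have e2 : σ + h.ω + π - h.ω = σ + π := by ring
    have o1 := h.outer (σ + h.ω) x (by rw [e1]; exact g1)
    have o2 := h.outer (σ + h.ω + π) y (by rw [e2]; exact g2)
    rw [e1, d1, arccos_cos hν0 (by linarith)] at o1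
    have d2' : eqDot r h.c (σ + π) y = cos (π - (ν + δ)) := by
      rw [cos_pi_sub, ← d2]
      unfold eqDot
      rw [cos_add_pi, sin_add_pi]; ring
    rw [e2, d2', arccos_cos (by linarith) (by linarith)] at o2
    have h3 := hanti (σ + h.ω)
    have h4 := dist_triangle4 (T.boundary ((σ + h.ω : ℝ) : AddCircle (2 * π)))
      (h.incl (S.boundary (x : AddCircle (2 * π)))) (h.incl (S.boundary (y : AddCircle (2 * π))))
      (T.boundary ((σ + h.ω + π : ℝ) : AddCircle (2 * π)))
    rw [dist_comm (h.incl (S.boundary (y : AddCircle (2 * π))))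
      (T.boundary ((σ + h.ω + π : ℝ) : AddCircle (2 * π)))] at h4
    have h5 := h.incl_le (S.boundary (x : AddCircle (2 * π))) (S.boundary (y : AddCircle (2 * π)))
    linarith

/-- Replacing a disc of radius less than `π / 4` of the hemisphere. -/
theorem area_of_replaced {N M : Type} [MetricSpace N] [MetricSpace M]
    (T : OrientedSurface N) (S : OrientedSurface M) {r : ℝ} (hr0 : 0 < r) (hr : r < π / 4)
    (hT : T.NoShortcut) (h : DiscReplaced T S r) : 2 * π ≤ T.area := by
  have hpi := Real.pi_pos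
  have h1 := capNoShortcut_of_replaced T S hr0.le (by linarith) hT h
  have hk0 : 0 < sin r := sin_pos_of_pos_of_lt_pi hr0 (by linarith)
  have hcos : 0 < cos r := cos_pos_of_mem_Ioo ⟨by linarith, by linarith⟩
  have hsq := sin_sq_add_cos_sq r
  have hk : sin r ^ 2 < 1 / 2 := by
    have h2 : 0 < cos (2 * r) := cos_pos_of_mem_Ioo ⟨by linarith, by linarith⟩
    rw [cos_two_mul] at h2
    linarith
  have h3 := cap_area2 S hk0 hk h1
  have h4 : √(1 - sin r ^ 2) = cos r := by
    rw [show 1 - sin r ^ 2 = cos r ^ 2 by linarith, Real.sqrt_sq hcos.le]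
  rw [h4] at h3
  rw [h.area_eq]
  linarith

end Pool.Agent.Helper83K9.Cap2
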